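import Pool.Agent.N112.PR.Core

/-!
# The weak form for all abelian groups from the weak form for finite groups of odd order
-/

set_option autoImplicit false

namespace Pool.Agent.N112.PR

open Finset Pool.Agent.Y806.DF Pool.Agent.R92.Star Pool.Agent.R424.EX
open scoped Pointwise

universe u

/-- the weak Marton theorem of the starting library -/
theorem wm' {Γ : Type*} [AddCommGroup Γ] [d : DecidableEq Γ] (K : ℝ) (A : Finset Γ)
    (hA : A.Nonempty) (hK : ((A + A).card : ℝ) ≤ K * (A.card : ℝ)) :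
    ∃ (P : AddSubgroup Γ) (S T : Finset Γ), Finite P ∧
      (((A : Set Γ) + (P : Set Γ)).ncard : ℝ) ≤ 2 * K ^ 370 * A.card ∧
      (S.card : ℝ) ≤ 480 * Real.log K + 1 ∧ (T.card : ℝ) ≤ K ^ 185 ∧
      ∀ a ∈ A, ∃ t ∈ T, ∃ o ∈ oddPart Γ, a - t - o ∈ P ⊔ AddSubgroup.closure (S : Set Γ) := by
  have hd : d = (fun a b => Classical.propDecidable (a = b)) := Subsingleton.elim _ _
  subst hd
  obtain ⟨P, S, T, h1, -, h2, h3, -, h4, h5⟩ := H137.Weak.weak_marton hA hK
  exact ⟨P, S, T, h1, h2, h3, h4, h5⟩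

theorem log_bound {K : ℝ} (hK : 1 ≤ K) {d : ℕ} (hd : (d : ℝ) ≤ 480 * Real.log K + 1) :
    (d : ℝ) ≤ ((482 : ℕ) : ℝ) * Real.log (2 * K) := by
  have h1 : Real.log K ≤ Real.log (2 * K) := Real.log_le_log (by linarith) (by linarith)
  have h2 : Real.log 2 ≤ Real.log (2 * K) := Real.log_le_log (by norm_num) (by linarith)
  have h3 := Real.log_two_gt_d9
  push_cast
  linarith

/-- a homomorphism from `ℤ ^ d` onto the subgroup generated by `d` elements -/
theorem gen_hom {Γ : Type*} [AddCommGroup Γ] (S : Finset Γ) :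
    ∃ ψ : (Fin S.card → ℤ) →+ Γ, AddSubgroup.closure (S : Set Γ) ≤ ψ.range := by
  classical
  let e := S.equivFin
  refine ⟨{ toFun := fun x => ∑ i, x i • (e.symm i : Γ)
            map_zero' := by simp
            map_add' := fun x y => by
              rw [← Finset.sum_add_distrib]
              exact Finset.sum_congr rfl fun i _ => by rw [Pi.add_apply, add_smul] }, ?_⟩
  rw [AddSubgroup.closure_le]
  intro s hs
  refine ⟨Pi.single (e ⟨s, hs⟩) 1, ?_⟩
  show ∑ i, (Pi.single (e ⟨s, hs⟩) 1 : Fin S.card → ℤ) i • (e.symm i : Γ) = s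
  rw [Finset.sum_eq_single (e ⟨s, hs⟩)]
  · simp
  · intro j _ hj
    simp [hj]
  · simp

/-- the number of elements of a union of cosets -/
theorem ncard_cosets {Γ : Type*} [AddCommGroup Γ] (P : AddSubgroup Γ) (U : Set Γ) :
    (U + (P : Set Γ)).ncard = Nat.card P * (QuotientAddGroup.mk' P '' U).ncard :=
  AddSubgroup.card_add_eq_card_addSubgroup_add_card_quotient P U

theorem poly_le {a b m : ℕ} (ha : a ≤ m) (hb : b ≤ m) {K : ℝ} (hK : 1 ≤ K) :
    (a : ℝ) * K ^ b ≤ m * K ^ m :=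
  mul_le_mul (by exact_mod_cast ha) (pow_le_pow_right₀ hK hb) (by positivity) (Nat.cast_nonneg _)

/-- The weak form passes to all abelian groups. -/
theorem weak_all (n : ℕ) : ∃ m : ℕ,
    (∀ (G : Type u) [AddCommGroup G] [DecidableEq G] [Finite G],
      Odd (Nat.card G) → WeakN n G) →
    ∀ (Γ : Type u) [AddCommGroup Γ] [DecidableEq Γ], WeakN m Γ := by
  classical
  obtain ⟨m, hm⟩ : ∃ m : ℕ, m = 2 * n ^ 2 * 2 ^ (964 * (6 * n + 3)) +
    (964 * (6 * n + 3) + 370) + (2893 * n + 482) := ⟨_, rfl⟩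
  refine ⟨m, ?_⟩
  intro hodd Γ _ _ K A hA hK
  have hK1 := one_le_K hA hK
  have hK0 : 0 < K := by linarith
  obtain ⟨P, S, T, hP, hAP, hS, hT, hcov⟩ := wm' K A hA hK
  obtain ⟨ψ₀, hψ₀⟩ := gen_hom S
  have hd := log_bound hK1 hS
  set π := QuotientAddGroup.mk' P with hπ
  have hker : ∀ x, π x = 0 ↔ x ∈ P := fun x => QuotientAddGroup.eq_zero_iff x
  have hsurj : Function.Surjective π := QuotientAddGroup.mk'_surjective P
  obtain ⟨L, hL⟩ : ∃ L : ℝ, L = (2 * K) ^ 964 := ⟨_, rfl⟩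
  have h2K : 1 ≤ 2 * K := by linarith
  have hKL : ∀ j, j ≤ 964 → K ^ j ≤ L := by
    intro j hj
    rw [hL]
    exact (pow_le_pow_left₀ hK0.le (by linarith) j).trans (pow_le_pow_right₀ h2K hj)
  have hL1 : 1 ≤ L := by rw [hL]; exact one_le_pow₀ h2K
  have hAL : ((A.image π + A.image π).card : ℝ) ≤ L * (A.image π).card :=
    (image_doubling π hA hK).trans
      (mul_le_mul_of_nonneg_right (hKL 3 (by norm_num)) (Nat.cast_nonneg _))
  obtain ⟨H₁, S₁, T₁, hH₁, hAH₁, hS₁, hT₁, hcov₁⟩ := main_weak (n := n) hodd hL1 (hA.image π) hAL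
    ((oddPart Γ).map π) (by
      rintro _ ⟨x, ⟨k, hk, hx⟩, rfl⟩
      exact ⟨k, hk, by rw [← map_nsmul, hx, map_zero]⟩) (π.comp ψ₀)
    (by rw [hL]; exact five_pow hK1 hd) (T.image π)
    ((by exact_mod_cast Finset.card_image_le : ((T.image π).card : ℝ) ≤ T.card).trans
      (hT.trans (hKL 185 (by norm_num)))) (by
      intro x hx
      obtain ⟨a, ha, rfl⟩ := Finset.mem_image.1 hx
      obtain ⟨t, ht, o, ho, h⟩ := hcov a ha
      obtain ⟨p, hp, s, hs, e⟩ := AddSubgroup.mem_sup.1 h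
      obtain ⟨y, rfl⟩ := hψ₀ hs
      refine ⟨π t, Finset.mem_image_of_mem _ ht, y, o, ho, ?_⟩
      have e1 : a = t + o + p + ψ₀ y := by
        have := e
        have e2 : a = t + o + (a - t - o) := by abel
        rw [e2, ← e]
        abel
      show π o = π a - π t - π (ψ₀ y)
      rw [e1, map_add, map_add, map_add, (hker p).2 hp]
      abel)
  choose σ hσ using hsurj
  obtain ⟨H, hH⟩ : ∃ H : AddSubgroup Γ, H = H₁.comap π := ⟨_, rfl⟩
  have hmemH : ∀ x, x ∈ H ↔ π x ∈ H₁ := by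
    intro x
    rw [hH]
    exact Iff.rfl
  have hPH : P ≤ H := by
    intro x hx
    rw [hmemH, (hker x).2 hx]
    exact H₁.zero_mem
  have hHfin : Finite H := by
    have h1 : ((((fs H₁).image σ + fs P : Finset Γ) : Set Γ)).Finite := Finset.finite_toSet _
    refine (h1.subset ?_).to_subtype
    intro x hx
    refine Finset.mem_coe.2 (Finset.mem_add.2 ⟨σ (π x), Finset.mem_image_of_mem _
      ((mem_fs H₁ _).2 ((hmemH x).1 hx)), x - σ (π x), (mem_fs P _).2 ?_, by abel⟩)
    rw [← hker, map_sub, hσ, sub_self]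
  have hsizes : (((A : Set Γ) + (H : Set Γ)).ncard : ℝ) ≤
      n ^ 2 * L ^ (6 * n + 3) * (2 * K ^ 370 * A.card) := by
    have h1 : ((A : Set Γ) + (H : Set Γ)) + (P : Set Γ) = (A : Set Γ) + (H : Set Γ) := by
      rw [add_assoc]
      congr 1
      ext x
      constructor
      · rintro ⟨h, hh, p, hp, rfl⟩
        exact H.add_mem hh (hPH hp)
      · intro hx
        exact ⟨x, hx, 0, P.zero_mem, add_zero x⟩
    have h2 : π '' ((A : Set Γ) + (H : Set Γ)) = ((A.image π : Finset _) : Set _) + (H₁ : Set _) := by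
      ext x
      constructor
      · rintro ⟨_, ⟨a, ha, h, hh, rfl⟩, rfl⟩
        exact ⟨π a, Finset.mem_coe.2 (Finset.mem_image_of_mem _ (Finset.mem_coe.1 ha)), π h,
          (hmemH h).1 hh, (map_add π a h).symm⟩
      · rintro ⟨y, hy, h, hh, rfl⟩
        obtain ⟨a, ha, rfl⟩ := Finset.mem_image.1 (Finset.mem_coe.1 hy)
        refine ⟨a + σ h, ⟨a, Finset.mem_coe.2 ha, σ h, (hmemH _).2 (by rw [hσ]; exact hh), rfl⟩, ?_⟩
        rw [map_add, hσ]
    have h3 := ncard_cosets P ((A : Set Γ) + (H : Set Γ))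
    rw [h1, ← hπ, h2] at h3
    have h4 := ncard_cosets P (A : Set Γ)
    have h5 : (QuotientAddGroup.mk' P '' (A : Set Γ)).ncard = (A.image π).card := by
      rw [← hπ, ← Set.ncard_coe_finset, Finset.coe_image]
    rw [h5] at h4
    rw [h3, Nat.cast_mul]
    calc (Nat.card P : ℝ) * ((((A.image π : Finset (Γ ⧸ P)) : Set (Γ ⧸ P)) +
          (H₁ : Set (Γ ⧸ P))).ncard : ℝ)
        ≤ (Nat.card P : ℝ) * (n ^ 2 * L ^ (6 * n + 3) * (A.image π).card) :=
          mul_le_mul_of_nonneg_left hAH₁ (Nat.cast_nonneg _)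
      _ = n ^ 2 * L ^ (6 * n + 3) * ((Nat.card P * (A.image π).card : ℕ) : ℝ) := by
          push_cast
          ring
      _ = n ^ 2 * L ^ (6 * n + 3) * (((A : Set Γ) + (P : Set Γ)).ncard : ℝ) := by rw [h4]
      _ ≤ _ := mul_le_mul_of_nonneg_left hAP (by positivity)
  refine ⟨H, S₁.image σ, T₁.image σ, hHfin, ?_, ?_, ?_, ?_⟩
  · refine hsizes.trans ?_
    have e : (n : ℝ) ^ 2 * L ^ (6 * n + 3) * (2 * K ^ 370 * A.card) =
        (((2 * n ^ 2 * 2 ^ (964 * (6 * n + 3)) : ℕ) : ℝ) * K ^ (964 * (6 * n + 3) + 370)) *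
          A.card := by
      rw [hL, ← pow_mul, mul_pow, pow_add K]
      push_cast
      ring
    rw [e]
    exact mul_le_mul_of_nonneg_right (poly_le (by omega) (by omega) hK1) (Nat.cast_nonneg _)
  · have h1 : ((S₁.image σ).card : ℝ) ≤ S₁.card := by exact_mod_cast Finset.card_image_le
    refine h1.trans (hS₁.trans ?_)
    have hlog0 : 0 ≤ Real.log (2 * K) := Real.log_nonneg h2K
    have e1 : Real.log (2 * L ^ 3) ≤ 2893 * Real.log (2 * K) := by
      rw [hL, ← pow_mul]
      have h2 : 2 * (2 * K) ^ (964 * 3) ≤ (2 * K) ^ 2893 := by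
        have h3 : (2 * K) ^ 2893 = (2 * K) * (2 * K) ^ (964 * 3) := by
          rw [← pow_succ']
        rw [h3]
        exact mul_le_mul_of_nonneg_right (by linarith) (by positivity)
      calc Real.log (2 * (2 * K) ^ (964 * 3)) ≤ Real.log ((2 * K) ^ 2893) :=
            Real.log_le_log (by positivity) h2
        _ = _ := by rw [Real.log_pow]; norm_num
    calc (n : ℝ) * Real.log (2 * L ^ 3) + (S.card : ℝ)
        ≤ n * (2893 * Real.log (2 * K)) + ((482 : ℕ) : ℝ) * Real.log (2 * K) :=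
          add_le_add (mul_le_mul_of_nonneg_left e1 (Nat.cast_nonneg _)) hd
      _ = ((2893 * n + 482 : ℕ) : ℝ) * Real.log (2 * K) := by push_cast; ring
      _ ≤ m * Real.log (2 * K) := by
        refine mul_le_mul_of_nonneg_right ?_ hlog0
        exact_mod_cast (by omega : 2893 * n + 482 ≤ m)
  · have h1 : ((T₁.image σ).card : ℝ) ≤ T₁.card := by exact_mod_cast Finset.card_image_le
    refine h1.trans (hT₁.trans ?_)
    have e : (n : ℝ) * L ^ (3 * n + 3) =
        ((n * 2 ^ (964 * (3 * n + 3)) : ℕ) : ℝ) * K ^ (964 * (3 * n + 3)) := by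
      rw [hL, ← pow_mul, mul_pow]
      push_cast
      ring
    rw [e]
    refine poly_le ?_ (by omega) hK1
    have h2 : n ≤ 2 * n ^ 2 := by nlinarith [Nat.zero_le n, sq_nonneg (n : ℤ), Nat.le_self_pow (n := 2) (by norm_num) n]
    have h3 : 2 ^ (964 * (3 * n + 3)) ≤ 2 ^ (964 * (6 * n + 3)) :=
      Nat.pow_le_pow_right (by norm_num) (by omega)
    have h4 : n * 2 ^ (964 * (3 * n + 3)) ≤ 2 * n ^ 2 * 2 ^ (964 * (6 * n + 3)) :=
      Nat.mul_le_mul h2 h3
    omega
  · intro a ha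
    obtain ⟨t, ht, h⟩ := hcov₁ (π a) (Finset.mem_image_of_mem _ ha)
    refine ⟨σ t, Finset.mem_image_of_mem _ ht, ?_⟩
    obtain ⟨h₁, hh₁, s, hs, e⟩ := AddSubgroup.mem_sup.1 h
    have hcl : AddSubgroup.closure (S₁ : Set (Γ ⧸ P)) =
        (AddSubgroup.closure ((S₁.image σ : Finset Γ) : Set Γ)).map π := by
      rw [AddMonoidHom.map_closure, Finset.coe_image, Set.image_image]
      simp only [hσ, Set.image_id']
    rw [hcl] at hs
    obtain ⟨w, hw, rfl⟩ := hs
    refine AddSubgroup.mem_sup.2 ⟨a - σ t - w, ?_, w, hw, by abel⟩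
    rw [hmemH, map_sub, map_sub, hσ, ← e, add_sub_cancel_right]
    exact hh₁

/-- The weak form holds if there are no elements of odd order. -/
theorem weak_two (Γ : Type*) [AddCommGroup Γ] [DecidableEq Γ] (h : oddPart Γ = ⊥) :
    WeakN 482 Γ := by
  classical
  intro K A hA hK
  have hK1 := one_le_K hA hK
  obtain ⟨P, S, T, hP, hAP, hS, hT, hcov⟩ := wm' K A hA hK
  refine ⟨P, S, T, hP, ?_, log_bound hK1 hS, ?_, ?_⟩
  · refine hAP.trans (mul_le_mul_of_nonneg_right ?_ (Nat.cast_nonneg _))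
    have := poly_le (a := 2) (b := 370) (m := 482) (by norm_num) (by norm_num) hK1
    exact_mod_cast this
  · have := poly_le (a := 1) (b := 185) (m := 482) (by norm_num) (by norm_num) hK1
    rw [Nat.cast_one, one_mul] at this
    exact hT.trans (by exact_mod_cast this)
  · intro a ha
    obtain ⟨t, ht, o, ho, h1⟩ := hcov a ha
    rw [h, AddSubgroup.mem_bot] at ho
    rw [ho, sub_zero] at h1
    exact ⟨t, ht, h1⟩

/-- The weak form holds in groups with one generator. -/
theorem weak_cyc (M : ℕ) : WeakN 2 (ZMod M) := by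
  classical
  intro K A hA hK
  have hK1 := one_le_K hA hK
  refine ⟨⊥, {1}, {0}, inferInstance, ?_, ?_, ?_, ?_⟩
  · have h1 : ((A : Set (ZMod M)) + ((⊥ : AddSubgroup (ZMod M)) : Set (ZMod M))) = A := by
      ext x
      constructor
      · rintro ⟨a, ha, b, hb, rfl⟩
        have hb' : b = 0 := hb
        rw [hb']
        show a + 0 ∈ _
        rw [add_zero]
        exact ha
      · intro hx
        exact ⟨x, hx, 0, rfl, add_zero x⟩
    rw [h1, Set.ncard_coe_finset]
    have := poly_le (a := 1) (b := 0) (m := 2) (by norm_num) (by norm_num) hK1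
    rw [Nat.cast_one, one_mul, pow_zero] at this
    calc (A.card : ℝ) = 1 * A.card := (one_mul _).symm
      _ ≤ _ := mul_le_mul_of_nonneg_right this (Nat.cast_nonneg _)
  · have h2 : Real.log 2 ≤ Real.log (2 * K) := Real.log_le_log (by norm_num) (by linarith)
    have h3 := Real.log_two_gt_d9
    rw [Finset.card_singleton]
    push_cast
    linarith
  · have := poly_le (a := 1) (b := 0) (m := 2) (by norm_num) (by norm_num) hK1
    rw [Finset.card_singleton]
    rw [Nat.cast_one, one_mul, pow_zero] at this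
    exact_mod_cast this
  · intro a _
    refine ⟨0, Finset.mem_singleton_self _, ?_⟩
    rw [sub_zero]
    obtain ⟨c, hc⟩ := ZMod.intCast_surjective a
    have e : a = c • (1 : ZMod M) := by rw [zsmul_one, hc]
    rw [e]
    exact (le_sup_right : AddSubgroup.closure _ ≤ (⊥ : AddSubgroup (ZMod M)) ⊔
      AddSubgroup.closure (({1} : Finset (ZMod M)) : Set (ZMod M)))
      (AddSubgroup.zsmul_mem _ (AddSubgroup.subset_closure (by simp)) _)

end Pool.Agent.N112.PR
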