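import Pool.Agent.N112.PR.Weak

/-!
# The core: from finite groups of odd order
-/

set_option autoImplicit false

namespace Pool.Agent.N112.PR

open Finset Pool.Agent.Y806.DF Pool.Agent.R92.Star Pool.Agent.R424.EX
open scoped Pointwise

universe u

/-- reduction modulo `N` -/
def red {d : ℕ} {O : Type*} [AddCommGroup O] (N : ℕ) :
    (Fin d → ℤ) × O →+ (Fin d → ZMod N) × O where
  toFun p := (fun i => ((p.1 i : ℤ) : ZMod N), p.2)
  map_zero' := by
    refine Prod.ext ?_ rfl
    funext i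
    simp
  map_add' x y := by
    refine Prod.ext ?_ rfl
    funext i
    simp

theorem red_surj {d : ℕ} {O : Type*} [AddCommGroup O] (N : ℕ) (s : (Fin d → ZMod N) × O) :
    ∃ p : (Fin d → ℤ) × O, red N p = s := by
  choose c hc using fun i => ZMod.intCast_surjective (s.1 i)
  exact ⟨(c, s.2), Prod.ext (funext hc) rfl⟩

theorem red_eq_zero {d : ℕ} {O : Type*} [AddCommGroup O] {N : ℕ} {k : (Fin d → ℤ) × O}
    (h : red N k = 0) : (∀ i, (N : ℤ) ∣ k.1 i) ∧ k.2 = 0 := by
  refine ⟨fun i => ?_, congrArg Prod.snd h⟩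
  have h1 : (fun i => ((k.1 i : ℤ) : ZMod N)) = 0 := congrArg Prod.fst h
  exact (ZMod.intCast_zmod_eq_zero_iff_dvd _ N).1 (congrFun h1 i)

theorem red_inj {d : ℕ} {O : Type*} [AddCommGroup O] {N : ℕ} {R : ℤ} (hR : 2 * R < N)
    {p q : (Fin d → ℤ) × O} (hp : ∀ i, |p.1 i| ≤ R) (hq : ∀ i, |q.1 i| ≤ R)
    (h : red N p = red N q) : p = q := by
  have h1 : red N (p - q) = 0 := by rw [map_sub, h, sub_self]
  obtain ⟨h2, h3⟩ := red_eq_zero h1
  have h4 : p - q = 0 := by
    refine Prod.ext ?_ h3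
    funext i
    refine Int.eq_zero_of_abs_lt_dvd (h2 i) ?_
    have := abs_le.1 (hp i)
    have := abs_le.1 (hq i)
    have e : (p - q).1 i = p.1 i - q.1 i := rfl
    rw [e, abs_lt]
    constructor <;> linarith
  exact sub_eq_zero.1 h4

theorem ncard_add_fs {G : Type*} [AddCommGroup G] [DecidableEq G] (A : Finset G)
    (H : AddSubgroup G) [Finite H] :
    ((A : Set G) + (H : Set G)).ncard = (A + fs H).card := by
  have h5 : ((A : Set G) + (H : Set G)) = ((A + fs H : Finset G) : Set G) := by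
    rw [Finset.coe_add]
    congr 1
    ext x
    rw [Finset.mem_coe, mem_fs]
    rfl
  rw [h5, Set.ncard_coe_finset]

set_option maxHeartbeats 1000000 in
/-- **The core.** -/
theorem main_weak {n : ℕ}
    (hodd : ∀ (G : Type u) [AddCommGroup G] [DecidableEq G] [Finite G],
      Odd (Nat.card G) → WeakN n G)
    {G : Type u} [AddCommGroup G] [DecidableEq G] {L : ℝ} (hL1 : 1 ≤ L) {A : Finset G}
    (hA : A.Nonempty) (hAL : ((A + A).card : ℝ) ≤ L * A.card) (O : AddSubgroup G)
    (hO : O ≤ oddPart G) {d : ℕ} (ψ : (Fin d → ℤ) →+ G) (hd : (5 : ℝ) ^ d ≤ L) (T : Finset G)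
    (hT : (T.card : ℝ) ≤ L) (hcov : ∀ a ∈ A, ∃ t ∈ T, ∃ x, a - t - ψ x ∈ O) :
    ∃ (H : AddSubgroup G) (S T' : Finset G), Finite H ∧
      (((A : Set G) + (H : Set G)).ncard : ℝ) ≤ n ^ 2 * L ^ (6 * n + 3) * A.card ∧
      (S.card : ℝ) ≤ n * Real.log (2 * L ^ 3) + d ∧ (T'.card : ℝ) ≤ n * L ^ (3 * n + 3) ∧
      ∀ a ∈ A, ∃ t ∈ T', a - t ∈ H ⊔ AddSubgroup.closure (S : Set G) := by
  classical
  have hL0 : 0 < L := by linarith
  obtain ⟨t, ht, ht2⟩ := pigeon T A A hA (fun t a => ∃ x, a - t - ψ x ∈ O) subset_rfl hcov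
  set E := A.filter (fun a => ∃ x, a - t - ψ x ∈ O) with hE
  have hEA : E ⊆ A := Finset.filter_subset _ _
  have hEne : E.Nonempty := by
    rw [← Finset.card_pos]
    by_contra hcon
    have h0 : E.card = 0 := by omega
    rw [h0, mul_zero] at ht2
    have := hA.card_pos
    omega
  obtain ⟨F, X, hFO, hXne, hXcard, hXE, hXF⟩ := rect2 O ψ t E hEne
    (fun e he => (Finset.mem_filter.1 he).2)
  obtain ⟨hfin, hOdd⟩ := finite_odd F (fun x hx => hO (hFO hx))
  obtain ⟨θ, hθ⟩ : ∃ θ : (Fin d → ℤ) × (AddSubgroup.closure (F : Set G)) →+ G,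
      ∀ p, θ p = ψ p.1 + p.2 :=
    ⟨ψ.coprod (AddSubgroup.closure (F : Set G)).subtype, fun p => rfl⟩
  simp only [← hθ] at hXE hXF
  have hθinj : ∀ p ∈ X, ∀ q ∈ X, θ p = θ q → p = q := by
    intro p hp q hq e
    exact add_right_cancel (hXF p hp p hp q hq p hp (by rw [e]))
  -- the numbers
  have hXA : X.card ≤ A.card := by
    refine (Finset.card_le_card_of_injOn (fun p => t + θ p) (fun p hp => hXE p hp) ?_).trans
      (Finset.card_le_card hEA)
    intro p hp q hq e
    exact hθinj p hp q hq (add_left_cancel e)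
  have hAX : (A.card : ℝ) ≤ L ^ 2 * X.card := by
    calc (A.card : ℝ) ≤ ((T.card * E.card : ℕ) : ℝ) := by exact_mod_cast ht2
      _ ≤ ((T.card * (5 ^ d * X.card) : ℕ) : ℝ) := by
        exact_mod_cast Nat.mul_le_mul_left _ hXcard
      _ = (T.card : ℝ) * ((5 : ℝ) ^ d * X.card) := by push_cast; rfl
      _ ≤ L * (L * X.card) := mul_le_mul hT (mul_le_mul_of_nonneg_right hd (Nat.cast_nonneg _))
          (by positivity) hL0.le
      _ = L ^ 2 * X.card := by ring
  obtain ⟨R, hR0, hR⟩ := exists_bound (X.image Prod.fst)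
  have hR' : ∀ p ∈ X, ∀ i, |p.1 i| ≤ R := fun p hp => hR _ (Finset.mem_image_of_mem _ hp)
  obtain ⟨N, hN, hNp⟩ := Nat.exists_infinite_primes
    (2 * R.toNat + 3 + ⌈(n : ℝ) * (L ^ 3) ^ n * X.card⌉₊)
  have : Fact N.Prime := ⟨hNp⟩
  have hNR : 2 * R < N := by omega
  have hN2 : N ≠ 2 := by omega
  have hNodd : Odd N := hNp.odd_of_ne_two hN2
  set Y := X.image (red N) with hY
  have hYcard : Y.card = X.card := by
    refine Finset.card_image_of_injOn ?_
    intro p hp q hq e
    exact red_inj hNR (hR' p hp) (hR' q hq) e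
  have hXX : (X + X).card ≤ (A + A).card := by
    refine (Finset.card_le_card_of_injOn (t := E + E) (fun v => t + t + θ v) ?_ ?_).trans
      (Finset.card_le_card (Finset.add_subset_add hEA hEA))
    · intro v hv
      obtain ⟨p, hp, q, hq, rfl⟩ := Finset.mem_add.1 (Finset.mem_coe.1 hv)
      refine Finset.mem_coe.2 (Finset.mem_add.2 ⟨t + θ p, hXE p hp, t + θ q, hXE q hq, ?_⟩)
      show t + θ p + (t + θ q) = t + t + θ (p + q)
      rw [map_add]
      abel
    · intro v hv v' hv' e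
      obtain ⟨p, hp, q, hq, rfl⟩ := Finset.mem_add.1 (Finset.mem_coe.1 hv)
      obtain ⟨p', hp', q', hq', rfl⟩ := Finset.mem_add.1 (Finset.mem_coe.1 hv')
      have e1 := add_left_cancel e
      rw [map_add, map_add] at e1
      exact hXF p hp q hq p' hp' q' hq' e1
  have hYY : ((Y + Y).card : ℝ) ≤ L ^ 3 * Y.card := by
    have h1 : (Y + Y).card ≤ (A + A).card := by
      rw [hY, ← Finset.image_add (red N)]
      exact Finset.card_image_le.trans hXX
    calc ((Y + Y).card : ℝ) ≤ (A + A).card := by exact_mod_cast h1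
      _ ≤ L * A.card := hAL
      _ ≤ L * (L ^ 2 * X.card) := mul_le_mul_of_nonneg_left hAX hL0.le
      _ = L ^ 3 * Y.card := by rw [hYcard]; ring
  have hcardodd : Odd (Nat.card ((Fin d → ZMod N) × (AddSubgroup.closure (F : Set G)))) := by
    rw [Nat.card_prod, Nat.card_fun, Nat.card_zmod, Nat.card_fin]
    exact (hNodd.pow).mul hOdd
  obtain ⟨HN, SN, TN, hHfin, hYH, hSN, hTN, hcovN⟩ :=
    hodd _ hcardodd (L ^ 3) Y (hXne.image _) (by convert hYY)
  rw [ncard_add_fs, hYcard] at hYH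
  -- the subgroup is vertical
  have hHN : Nat.card HN < N := by
    have h1 : (fs HN).card ≤ (Y + fs HN).card :=
      Finset.card_le_card_add_left (hXne.image _)
    rw [card_fs] at h1
    have h2 : (Nat.card HN : ℝ) ≤ (n : ℝ) * (L ^ 3) ^ n * X.card :=
      (by exact_mod_cast h1 : (Nat.card HN : ℝ) ≤ (Y + fs HN).card).trans hYH
    have h3 : Nat.card HN ≤ ⌈(n : ℝ) * (L ^ 3) ^ n * X.card⌉₊ := by
      exact_mod_cast h2.trans (Nat.le_ceil _)
    omega
  have hvert : ∀ h ∈ HN, h.1 = 0 := by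
    intro h hh
    have h1 : Nat.card HN • (⟨h, hh⟩ : HN) = 0 := card_nsmul_eq_zero'
    have h2 : Nat.card HN • h = 0 := by
      have h3 := congrArg HN.subtype h1
      rw [map_nsmul, map_zero] at h3
      exact h3
    have h3 : Nat.card HN • h.1 = 0 := congrArg Prod.fst h2
    funext i
    have h4 : (Nat.card HN : ZMod N) * h.1 i = 0 := by
      have := congrFun h3 i
      rwa [Pi.smul_apply, nsmul_eq_mul] at this
    rcases mul_eq_zero.1 h4 with h5 | h5
    · exfalso
      have h6 := (ZMod.natCast_eq_zero_iff _ _).1 h5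
      have h7 := Nat.le_of_dvd Nat.card_pos h6
      omega
    · exact h5
  -- the popular coset
  obtain ⟨tN, htN, htN2⟩ := pigeon TN X X hXne
    (fun t p => red N p - t ∈ HN ⊔ AddSubgroup.closure (SN : Set _)) subset_rfl
    (fun p hp => hcovN (red N p) (Finset.mem_image_of_mem _ hp))
  set X₀ := X.filter (fun p => red N p - tN ∈ HN ⊔ AddSubgroup.closure (SN : Set _)) with hX₀
  have hX₀X : X₀ ⊆ X := Finset.filter_subset _ _
  have hX₀ne : X₀.Nonempty := by
    rw [← Finset.card_pos]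
    by_contra hcon
    have h0 : X₀.card = 0 := by omega
    rw [h0, mul_zero] at htN2
    have := hXne.card_pos
    omega
  -- the subgroup and the generators
  obtain ⟨f, hf⟩ : ∃ f : (Fin d → ZMod N) × (AddSubgroup.closure (F : Set G)) →+ G,
      ∀ h, f h = (h.2 : G) :=
    ⟨(AddSubgroup.closure (F : Set G)).subtype.comp (AddMonoidHom.snd _ _), fun _ => rfl⟩
  obtain ⟨H, hH⟩ : ∃ H : AddSubgroup G, H = HN.map f := ⟨_, rfl⟩
  have hmemH : ∀ x, x ∈ H ↔ ∃ h ∈ HN, (h.2 : G) = x := by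
    intro x
    rw [hH]
    constructor
    · rintro ⟨h, hh, e⟩
      exact ⟨h, hh, by rw [← hf]; exact e⟩
    · rintro ⟨h, hh, e⟩
      exact ⟨h, hh, by rw [← e]; exact hf h⟩
  have hHfin' : Finite H := by
    have h1 : (f '' (fs HN : Set _)).Finite := (Finset.finite_toSet _).image _
    have h2 : (H : Set G) ⊆ f '' (fs HN : Set _) := by
      intro x hx
      obtain ⟨h, hh, e⟩ := (hmemH x).1 hx
      exact ⟨h, Finset.mem_coe.2 ((mem_fs HN h).2 hh), by rw [hf]; exact e⟩
    exact (h1.subset h2).to_subtype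
  choose lf hlf using red_surj (d := d) (O := AddSubgroup.closure (F : Set G)) N
  set S₁ := SN.image lf with hS₁
  have hS₁SN : (red N) '' (S₁ : Set ((Fin d → ℤ) × (AddSubgroup.closure (F : Set G)))) = SN := by
    ext s
    constructor
    · rintro ⟨p, hp, rfl⟩
      obtain ⟨s', hs', rfl⟩ := Finset.mem_image.1 (Finset.mem_coe.1 hp)
      rw [hlf]
      exact hs'
    · intro hs
      exact ⟨lf s, Finset.mem_coe.2 (Finset.mem_image_of_mem _ hs), hlf s⟩
  set S : Finset G := S₁.image θ ∪ Finset.univ.image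
    (fun i : Fin d => ψ ((N : ℤ) • Pi.single i 1)) with hS
  have hScard : (S.card : ℝ) ≤ n * Real.log (2 * L ^ 3) + d := by
    have h1 : S.card ≤ SN.card + d := by
      refine (Finset.card_union_le _ _).trans (add_le_add ?_ ?_)
      · exact Finset.card_image_le.trans Finset.card_image_le
      · exact Finset.card_image_le.trans (by rw [Finset.card_univ, Fintype.card_fin])
    calc (S.card : ℝ) ≤ ((SN.card + d : ℕ) : ℝ) := by exact_mod_cast h1
      _ = SN.card + d := by push_cast; rfl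
      _ ≤ _ := by linarith
  have hclosure : AddSubgroup.closure (SN : Set _) =
      (AddSubgroup.closure (S₁ : Set ((Fin d → ℤ) × (AddSubgroup.closure (F : Set G))))).map
        (red N) := by
    rw [AddMonoidHom.map_closure, hS₁SN]
  have hVdiff : ∀ p ∈ X₀, ∀ q ∈ X₀, θ p - θ q ∈ H ⊔ AddSubgroup.closure (S : Set G) := by
    intro p hp q hq
    have h1 : red N (p - q) ∈ HN ⊔ AddSubgroup.closure (SN : Set _) := by
      have h2 := AddSubgroup.sub_mem _ (Finset.mem_filter.1 hp).2 (Finset.mem_filter.1 hq).2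
      rw [map_sub]
      rwa [sub_sub_sub_cancel_right] at h2
    obtain ⟨h, hh, s, hs, e⟩ := AddSubgroup.mem_sup.1 h1
    rw [hclosure] at hs
    obtain ⟨w, hw, rfl⟩ := hs
    obtain ⟨k, hk⟩ : ∃ k, k = p - q - w - ((0 : Fin d → ℤ), h.2) := ⟨_, rfl⟩
    have hred0 : red N ((0 : Fin d → ℤ), h.2) = h := by
      refine Prod.ext ?_ rfl
      rw [hvert h hh]
      funext i
      show (((0 : ℤ)) : ZMod N) = 0
      exact Int.cast_zero
    have hk0 : red N k = 0 := by
      rw [hk, map_sub, map_sub, hred0, ← e]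
      abel
    obtain ⟨hk1, hk2⟩ := red_eq_zero hk0
    have hθk : θ k ∈ AddSubgroup.closure (S : Set G) := by
      rw [hθ, hk2]
      have e1 : ((0 : AddSubgroup.closure (F : Set G)) : G) = 0 := rfl
      rw [e1, add_zero, ← Finset.univ_sum_single k.1, map_sum]
      refine AddSubgroup.sum_mem _ fun i _ => ?_
      obtain ⟨c, hc⟩ := hk1 i
      have e2 : (Pi.single i (k.1 i) : Fin d → ℤ) = c • ((N : ℤ) • Pi.single i 1) := by
        rw [hc]
        funext j
        by_cases hj : j = i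
        · subst hj
          simp [mul_comm]
        · simp [hj]
      rw [e2, map_zsmul]
      refine AddSubgroup.zsmul_mem _ (AddSubgroup.subset_closure ?_) _
      rw [Finset.mem_coe, hS, Finset.mem_union]
      exact Or.inr (Finset.mem_image.2 ⟨i, Finset.mem_univ _, rfl⟩)
    have hθw : θ w ∈ AddSubgroup.closure (S : Set G) := by
      have h2 : θ w ∈ (AddSubgroup.closure
          (S₁ : Set ((Fin d → ℤ) × (AddSubgroup.closure (F : Set G))))).map θ := ⟨w, hw, rfl⟩
      rw [AddMonoidHom.map_closure] at h2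
      refine AddSubgroup.closure_mono ?_ h2
      rintro _ ⟨v, hv, rfl⟩
      rw [Finset.mem_coe, hS, Finset.mem_union]
      exact Or.inl (Finset.mem_image_of_mem _ (Finset.mem_coe.1 hv))
    have e3 : θ p - θ q = (h.2 : G) + (θ w + θ k) := by
      have e4 : p - q = ((0 : Fin d → ℤ), h.2) + (w + k) := by rw [hk]; abel
      rw [← map_sub, e4, map_add, map_add, hθ ((0 : Fin d → ℤ), h.2)]
      simp
    rw [e3]
    refine AddSubgroup.mem_sup.2 ⟨_, (hmemH _).2 ⟨h, hh, rfl⟩, _, AddSubgroup.add_mem _ hθw hθk, rfl⟩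
  -- the part of `A`
  set A₀ := X₀.image (fun p => t + θ p) with hA₀
  have hA₀card : A₀.card = X₀.card := by
    refine Finset.card_image_of_injOn ?_
    intro p hp q hq e
    exact hθinj p (hX₀X hp) q (hX₀X hq) (add_left_cancel e)
  have hA₀A : A₀ ⊆ A := by
    intro a ha
    obtain ⟨p, hp, rfl⟩ := Finset.mem_image.1 ha
    exact hEA (hXE p (hX₀X hp))
  have hβ : ((A₀ + fs H).card : ℝ) ≤ (n * L ^ (3 * n)) * A.card := by
    set Z := X₀ + (fs HN).image (fun h => ((0 : Fin d → ℤ), h.2)) with hZ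
    have h1 : A₀ + fs H ⊆ Z.image (fun v => t + θ v) := by
      intro x hx
      obtain ⟨a, ha, b, hb, rfl⟩ := Finset.mem_add.1 hx
      obtain ⟨p, hp, rfl⟩ := Finset.mem_image.1 ha
      obtain ⟨h, hh, rfl⟩ := (hmemH b).1 ((mem_fs H b).1 hb)
      refine Finset.mem_image.2 ⟨p + ((0 : Fin d → ℤ), h.2), Finset.add_mem_add hp
        (Finset.mem_image.2 ⟨h, (mem_fs HN h).2 hh, rfl⟩), ?_⟩
      show t + θ (p + ((0 : Fin d → ℤ), h.2)) = t + θ p + h.2
      rw [map_add, hθ ((0 : Fin d → ℤ), h.2), ← add_assoc]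
      simp
    have h2 : Z.card ≤ (Y + fs HN).card := by
      refine Finset.card_le_card_of_injOn (red N) ?_ ?_
      · intro v hv
        obtain ⟨p, hp, q, hq, rfl⟩ := Finset.mem_add.1 (Finset.mem_coe.1 hv)
        obtain ⟨h, hh, rfl⟩ := Finset.mem_image.1 hq
        have hh' := (mem_fs HN h).1 hh
        refine Finset.mem_coe.2 (Finset.mem_add.2 ⟨red N p, Finset.mem_image_of_mem _ (hX₀X hp),
          h, hh, ?_⟩)
        rw [map_add]
        congr 1
        refine (Prod.ext ?_ rfl)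
        rw [hvert h hh']
        funext i
        show (0 : ZMod N) = (((0 : ℤ)) : ZMod N)
        exact Int.cast_zero.symm
      · have hbd : ∀ v ∈ Z, ∀ i, |v.1 i| ≤ R := by
          intro v hv i
          obtain ⟨p, hp, q, hq, rfl⟩ := Finset.mem_add.1 hv
          obtain ⟨h, hh, rfl⟩ := Finset.mem_image.1 hq
          have e : (p + ((0 : Fin d → ℤ), h.2)).1 i = p.1 i := by simp
          rw [e]
          exact hR' p (hX₀X hp) i
        intro v hv v' hv' e
        exact red_inj hNR (hbd v (Finset.mem_coe.1 hv)) (hbd v' (Finset.mem_coe.1 hv')) e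
    have h3 : (A₀ + fs H).card ≤ (Y + fs HN).card :=
      ((Finset.card_le_card h1).trans Finset.card_image_le).trans h2
    calc ((A₀ + fs H).card : ℝ) ≤ (Y + fs HN).card := by exact_mod_cast h3
      _ ≤ n * (L ^ 3) ^ n * X.card := hYH
      _ ≤ n * (L ^ 3) ^ n * A.card := by
        refine mul_le_mul_of_nonneg_left (by exact_mod_cast hXA) (by positivity)
      _ = _ := by rw [← pow_mul]
  have hα : (A.card : ℝ) ≤ (n * L ^ (3 * n + 2)) * A₀.card := by
    have h1 : (X.card : ℝ) ≤ (n * (L ^ 3) ^ n) * X₀.card := by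
      calc (X.card : ℝ) ≤ ((TN.card * X₀.card : ℕ) : ℝ) := by exact_mod_cast htN2
        _ = (TN.card : ℝ) * X₀.card := by push_cast; rfl
        _ ≤ _ := mul_le_mul_of_nonneg_right hTN (Nat.cast_nonneg _)
    calc (A.card : ℝ) ≤ L ^ 2 * X.card := hAX
      _ ≤ L ^ 2 * ((n * (L ^ 3) ^ n) * X₀.card) := mul_le_mul_of_nonneg_left h1 (by positivity)
      _ = _ := by rw [hA₀card, ← pow_mul, pow_add]; ring
  obtain ⟨h1, T', hT', h2⟩ := asm (hX₀ne.image _) hA₀A hAL hL0.le hα H hβ
    (H ⊔ AddSubgroup.closure (S : Set G)) (by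
      intro x hx y hy
      obtain ⟨p, hp, rfl⟩ := Finset.mem_image.1 hx
      obtain ⟨q, hq, rfl⟩ := Finset.mem_image.1 hy
      rw [add_sub_add_left_eq_sub]
      exact hVdiff p hp q hq)
  refine ⟨H, S, T', hHfin', ?_, hScard, ?_, h2⟩
  · refine h1.trans (le_of_eq ?_)
    congr 1
    rw [show 6 * n + 3 = 1 + (3 * n + 2) + 3 * n by ring, pow_add, pow_add]
    ring
  · refine hT'.trans (le_of_eq ?_)
    rw [show 3 * n + 3 = 1 + (3 * n + 2) by ring, pow_add]
    ring

end Pool.Agent.N112.PR
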