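import Pool.Agent.N112.PR.Model

/-!
# Q1 for the integers, or for arbitrarily large cyclic groups, implies Q1 for all `ℤ ^ d`
-/

set_option autoImplicit false

namespace Pool.Agent.N112.PR

open Finset Pool.Agent.Y806.DF Pool.Agent.R92.Star Pool.Agent.R424.EX
open scoped Pointwise

universe u

/-- Q1 for the group `Γ` with the constant `C`. -/
def Q1For (C : ℝ) (Γ : Type*) [AddCommGroup Γ] [DecidableEq Γ] : Prop :=
  ∀ (K : ℝ) (A : Finset Γ), A.Nonempty → ((A + A).card : ℝ) ≤ K * A.card → Concl C K A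

theorem five_pow {n : ℕ} {K : ℝ} (hK : 1 ≤ K) {r : ℕ} (hr : (r : ℝ) ≤ n * Real.log (2 * K)) :
    (5 : ℝ) ^ r ≤ (2 * K) ^ (2 * n) := by
  have hK0 : 0 < K := by linarith
  have hl : Real.log 5 ≤ 2 := by
    rw [Real.log_le_iff_le_exp (by norm_num)]
    have h1 : (2.7 : ℝ) ≤ Real.exp 1 := by
      have := Real.exp_one_gt_d9
      linarith
    calc (5 : ℝ) ≤ 2.7 * 2.7 := by norm_num
      _ ≤ Real.exp 1 * Real.exp 1 := mul_le_mul h1 h1 (by norm_num) (Real.exp_pos _).le
      _ = Real.exp 2 := by rw [← Real.exp_add]; norm_num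
  have h1 : Real.log ((5 : ℝ) ^ r) ≤ Real.log ((2 * K) ^ (2 * n)) := by
    rw [Real.log_pow, Real.log_pow]
    calc (r : ℝ) * Real.log 5 ≤ r * 2 := mul_le_mul_of_nonneg_left hl (Nat.cast_nonneg _)
      _ ≤ (n * Real.log (2 * K)) * 2 := mul_le_mul_of_nonneg_right hr (by norm_num)
      _ = ((2 * n : ℕ) : ℝ) * Real.log (2 * K) := by push_cast; ring
  exact (Real.log_le_log_iff (by positivity) (by positivity)).1 h1

theorem four_pow {n : ℕ} {K : ℝ} (hK : 1 ≤ K) {r : ℕ} (hr : (r : ℝ) ≤ n * Real.log (2 * K)) :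
    (4 : ℝ) ^ r ≤ (2 * K) ^ (2 * n) :=
  (pow_le_pow_left₀ (by norm_num) (by norm_num) r).trans (five_pow hK hr)

/-- A linear form which is injective on a box. -/
theorem form (d : ℕ) (Z : ℤ) : ∃ f : Fin d → ℤ, ∀ z : Fin d → ℤ, (∀ i, |z i| ≤ Z) →
    ∑ i, f i * z i = 0 → z = 0 := by
  induction d with
  | zero => exact ⟨0, fun z _ _ => Subsingleton.elim _ _⟩
  | succ d ih =>
    obtain ⟨f, hf⟩ := ih
    refine ⟨Fin.cons 1 (fun i => (|Z| + 1) * f i), fun z hz h => ?_⟩
    rw [Fin.sum_univ_succ] at h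
    simp only [Fin.cons_zero, Fin.cons_succ, one_mul] at h
    have e1 : ∑ i : Fin d, (|Z| + 1) * f i * z i.succ =
        (|Z| + 1) * ∑ i : Fin d, f i * z i.succ := by
      rw [Finset.mul_sum]
      exact Finset.sum_congr rfl fun i _ => by ring
    rw [e1] at h
    have h0 : z 0 = 0 := by
      have hdvd : (|Z| + 1) ∣ z 0 := ⟨-∑ i : Fin d, f i * z i.succ, by linarith⟩
      refine Int.eq_zero_of_abs_lt_dvd hdvd ?_
      have h1 := hz 0
      have h2 := le_abs_self Z
      linarith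
    rw [h0, zero_add] at h
    have hpos : 0 < |Z| + 1 := by positivity
    have h2 : ∑ i : Fin d, f i * z i.succ = 0 := by
      rcases mul_eq_zero.1 h with h | h
      · exact absurd h hpos.ne'
      · exact h
    have h3 := hf (fun i => z i.succ) (fun i => hz i.succ) h2
    funext i
    refine Fin.cases h0 (fun j => ?_) i
    exact congrFun h3 j

/-- the linear form as a homomorphism to `ZMod M` (and to `ℤ` for `M = 0`) -/
def formHom {d : ℕ} (f : Fin d → ℤ) (M : ℕ) : (Fin d → ℤ) →+ ZMod M where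
  toFun z := ((∑ i, f i * z i : ℤ) : ZMod M)
  map_zero' := by simp
  map_add' x y := by
    rw [← Int.cast_add]
    congr 1
    rw [← Finset.sum_add_distrib]
    exact Finset.sum_congr rfl fun i _ => by rw [Pi.add_apply]; ring

theorem exists_bound {d : ℕ} (A : Finset (Fin d → ℤ)) : ∃ R : ℤ, 0 ≤ R ∧ ∀ a ∈ A, ∀ i, |a i| ≤ R := by
  refine ⟨∑ a ∈ A, ∑ i, |a i|, ?_, ?_⟩
  · exact Finset.sum_nonneg fun a _ => Finset.sum_nonneg fun i _ => abs_nonneg _
  · intro a ha i
    calc |a i| ≤ ∑ i, |a i| := Finset.single_le_sum (f := fun i => |a i|)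
          (fun i _ => abs_nonneg _) (Finset.mem_univ i)
      _ ≤ _ := Finset.single_le_sum (f := fun a : Fin d → ℤ => ∑ i, |a i|)
          (fun a _ => Finset.sum_nonneg fun i _ => abs_nonneg _) ha

theorem dvd_of_mem {M : ℕ} (H : AddSubgroup (ZMod M)) (z : ℤ) (hz : (z : ZMod M) ∈ H) :
    (M : ℤ) ∣ (Nat.card H : ℤ) * z := by
  have h1 : Nat.card H • (⟨((z : ℤ) : ZMod M), hz⟩ : H) = 0 := card_nsmul_eq_zero'
  have h2 := congrArg H.subtype h1
  rw [map_nsmul, map_zero] at h2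
  have h3 : (((Nat.card H : ℤ) * z : ℤ) : ZMod M) = 0 := by
    rw [Int.cast_mul, Int.cast_natCast, ← nsmul_eq_mul]
    exact h2
  exact (ZMod.intCast_zmod_eq_zero_iff_dvd _ M).1 h3

/-- The general step: from the image in `ZMod M` (`M = 0` or `M` large) to the set. -/
theorem lift_concl (C : ℝ) : ∃ C' : ℝ, ∀ (d : ℕ) (K : ℝ) (A : Finset (Fin d → ℤ)), A.Nonempty →
    ((A + A).card : ℝ) ≤ K * A.card → ∃ L : ℕ, ∀ M : ℕ, M = 0 ∨ L ≤ M →
    ∃ B : Finset (ZMod M), B.Nonempty ∧ ((B + B).card : ℝ) ≤ K * B.card ∧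
      (Concl C K B → Concl C' K A) := by
  classical
  obtain ⟨n, hn1, hn, hCK⟩ := nat_const C
  obtain ⟨C', hC'⟩ := concl_of.{0} (4 ^ n * n) (3 * n)
  refine ⟨C', ?_⟩
  intro d K A hA hK
  have hK1 := one_le_K hA hK
  have hK0 : 0 < K := by linarith
  have hlog0 : 0 ≤ Real.log (2 * K) := Real.log_nonneg (by linarith)
  obtain ⟨R, hR0, hR⟩ := exists_bound A
  obtain ⟨f, hf⟩ := form d (4 * R)
  obtain ⟨F, hF⟩ : ∃ F : ℕ, (F : ℤ) = ∑ i, |f i| * (4 * R) := by
    have h0 : 0 ≤ ∑ i, |f i| * (4 * R) :=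
      Finset.sum_nonneg fun i _ => mul_nonneg (abs_nonneg _) (by linarith)
    exact ⟨_, Int.toNat_of_nonneg h0⟩
  have hFb : ∀ z : Fin d → ℤ, (∀ i, |z i| ≤ 4 * R) → |∑ i, f i * z i| ≤ F := by
    intro z hz
    rw [hF]
    refine (Finset.abs_sum_le_sum_abs _ _).trans (Finset.sum_le_sum fun i _ => ?_)
    rw [abs_mul]
    exact mul_le_mul_of_nonneg_left (hz i) (abs_nonneg _)
  refine ⟨(F + 1) * A.card, ?_⟩
  intro M hM
  set g := formHom f M with hg
  -- injectivity on `A`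
  have hinj : Set.InjOn g (A : Set (Fin d → ℤ)) := by
    intro a ha b hb hab
    have h1 : g (a - b) = 0 := by rw [map_sub, hab, sub_self]
    have h2 : ∀ i, |(a - b) i| ≤ 4 * R := by
      intro i
      have := abs_le.1 (hR a (Finset.mem_coe.1 ha) i)
      have := abs_le.1 (hR b (Finset.mem_coe.1 hb) i)
      rw [Pi.sub_apply, abs_le]
      constructor <;> linarith
    have h3 : (M : ℤ) ∣ ∑ i, f i * (a - b) i := (ZMod.intCast_zmod_eq_zero_iff_dvd _ M).1 h1
    have h4 : ∑ i, f i * (a - b) i = 0 := by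
      rcases hM with hM | hM
      · rw [hM, Nat.cast_zero, zero_dvd_iff] at h3
        exact h3
      · refine Int.eq_zero_of_abs_lt_dvd h3 ?_
        have h5 := hFb _ h2
        have h6 : F + 1 ≤ M := (Nat.le_mul_of_pos_right _ hA.card_pos).trans hM
        have h7 : ((F : ℤ) + 1) ≤ M := by exact_mod_cast h6
        linarith
    exact sub_eq_zero.1 (hf _ h2 h4)
  have hcard : (A.image g).card = A.card := Finset.card_image_of_injOn hinj
  refine ⟨A.image g, hA.image g, ?_, ?_⟩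
  · rw [hcard, ← Finset.image_add g]
    exact (by exact_mod_cast Finset.card_image_le :
      (((A + A).image g).card : ℝ) ≤ (A + A).card).trans hK
  rintro ⟨r, B, ψ, H, T, hr, hB, hH, hvol, hT, hcov⟩
  rw [hcard] at hvol
  have hfinB : (lat B).Finite := lat_finite hB.2.1.isBounded
  have hsym : Sym B := ⟨hB.1, hB.2.1, hB.2.2.2, hB.2.2.1.mono interior_subset⟩
  have hlatpos : 0 < (lat B).ncard := by
    have := num_pos hsym 1
    rwa [num, one_smul] at this
  have hHpos : 0 < Nat.card H := Nat.card_pos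
  have hHA : Nat.card H ≤ A.card := (Nat.le_mul_of_pos_left _ hlatpos).trans hvol
  have hBA : (lat B).ncard ≤ A.card := (Nat.le_mul_of_pos_right _ hHpos).trans hvol
  -- the modulus `m`
  obtain ⟨m, hm1, hm2⟩ : ∃ m : ℤ, (∀ z : ℤ, (z : ZMod M) ∈ H → m ∣ z) ∧ (m = 0 ∨ (F : ℤ) < m) := by
    rcases hM with hM | hM
    · refine ⟨0, fun z hz => ?_, Or.inl rfl⟩
      have h4 := dvd_of_mem H z hz
      have hM0 : (M : ℤ) = 0 := by exact_mod_cast hM
      rw [hM0] at h4
      have h5 : (Nat.card H : ℤ) * z = 0 := zero_dvd_iff.1 h4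
      rcases mul_eq_zero.1 h5 with h6 | h6
      · exact absurd h6 (by exact_mod_cast hHpos.ne')
      · rw [h6]
    · have hMpos : 0 < M := lt_of_lt_of_le (Nat.mul_pos (by omega) hA.card_pos) hM
      have : NeZero M := ⟨hMpos.ne'⟩
      obtain ⟨m, hm⟩ : Nat.card H ∣ M := by
        have h1 := AddSubgroup.card_addSubgroup_dvd_card H
        rwa [Nat.card_zmod] at h1
      refine ⟨m, fun z hz => ?_, Or.inr ?_⟩
      · have h4 := dvd_of_mem H z hz
        have hM' : (M : ℤ) = (Nat.card H : ℤ) * m := by exact_mod_cast hm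
        rw [hM'] at h4
        exact Int.dvd_of_mul_dvd_mul_left (by exact_mod_cast hHpos.ne') h4
      · have h1 : (F + 1) * Nat.card H ≤ Nat.card H * m := by
          rw [← hm]
          exact (Nat.mul_le_mul_left _ hHA).trans hM
        rw [mul_comm (Nat.card H) m] at h1
        have h2 : F + 1 ≤ m := Nat.le_of_mul_le_mul_right h1 hHpos
        exact_mod_cast h2
  -- the popular translate
  obtain ⟨t, ht, ht2⟩ := pigeon T A A hA
    (fun t a => ∃ x ∈ hfinB.toFinset, ∃ h ∈ H, g a = t + ψ x + h) subset_rfl (by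
      intro a ha
      obtain ⟨t, ht, x, hx, h, hh, e⟩ := hcov (g a) (Finset.mem_image_of_mem g ha)
      exact ⟨t, ht, x, (Set.Finite.mem_toFinset _).2 hx, h, hh, e⟩)
  set A' := A.filter (fun a => ∃ x ∈ hfinB.toFinset, ∃ h ∈ H, g a = t + ψ x + h) with hA'def
  have hTpos : 0 < T.card := Finset.card_pos.2 ⟨t, ht⟩
  have hA'ne : A'.Nonempty := by
    rw [← Finset.card_pos]
    by_contra hcon
    have h0 : A'.card = 0 := by omega
    rw [h0, mul_zero] at ht2
    have := hA.card_pos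
    omega
  -- integer coefficients
  have hlift : ∀ y : ZMod M, ∃ c : ℤ, ((c : ℤ) : ZMod M) = y := ZMod.intCast_surjective
  choose lf hlf using hlift
  obtain ⟨c, hc⟩ : ∃ c : Fin r → ℤ, c = fun i => lf (ψ (Pi.single i 1)) := ⟨_, rfl⟩
  have hψ : ∀ x : Fin r → ℤ, ψ x = ((∑ i, c i * x i : ℤ) : ZMod M) := by
    intro x
    conv_lhs => rw [← Finset.univ_sum_single x]
    rw [map_sum, Int.cast_sum]
    refine Finset.sum_congr rfl fun i _ => ?_
    have e1 : (Pi.single i (x i) : Fin r → ℤ) = x i • Pi.single i 1 := by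
      rw [← Pi.single_smul]
      simp
    rw [e1, map_zsmul, hc, Int.cast_mul, hlf, zsmul_eq_mul, mul_comm]
  have hw : ∀ a : Fin d → ℤ, ∃ w : ℤ, a ∈ A' → ∃ x ∈ lat B,
      ∑ i, f i * a i = lf t + ∑ i, c i * x i + m * w := by
    intro a
    by_cases ha : a ∈ A'
    · obtain ⟨-, x, hx, h, hh, e⟩ := Finset.mem_filter.1 ha
      have h1 : ((∑ i, f i * a i - lf t - ∑ i, c i * x i : ℤ) : ZMod M) ∈ H := by
        have e1 : ((∑ i, f i * a i - lf t - ∑ i, c i * x i : ℤ) : ZMod M) = h := by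
          rw [Int.cast_sub, Int.cast_sub, hlf, ← hψ]
          have e2 : ((∑ i, f i * a i : ℤ) : ZMod M) = t + ψ x + h := e
          rw [e2]
          abel
        rw [e1]
        exact hh
      obtain ⟨w, hw⟩ := hm1 _ h1
      exact ⟨w, fun _ => ⟨x, (Set.Finite.mem_toFinset _).1 hx, by linarith⟩⟩
    · exact ⟨0, fun hh => absurd hh ha⟩
  choose w hw using hw
  obtain ⟨W, hW0, hW, hWm⟩ : ∃ W : ℤ, 0 ≤ W ∧ (∀ a ∈ A', m ≠ 0 → |w a| ≤ W) ∧ (m = 0 → W = 0) := by
    rcases eq_or_ne m 0 with hm | hm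
    · exact ⟨0, le_refl _, fun a _ h => absurd hm h, fun _ => rfl⟩
    · refine ⟨∑ a ∈ A', |w a|, Finset.sum_nonneg fun a _ => abs_nonneg _, fun a ha _ => ?_,
        fun h => absurd h hm⟩
      exact Finset.single_le_sum (f := fun a => |w a|) (fun a _ => abs_nonneg _) ha
  obtain ⟨X, hD⟩ := model_data hA'ne (Finset.filter_subset _ _) hB hBA R W f c (lf t) m
    (by
      intro z w hz hw e
      have h1 := hFb z hz
      have hw0 : w = 0 := by
        rcases hm2 with hm | hm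
        · rw [hWm hm, mul_zero] at hw
          exact abs_nonpos_iff.1 hw
        · by_contra hne
          have h2 : 1 ≤ |w| := Int.one_le_abs hne
          rw [e, abs_mul, abs_of_pos (by linarith [Int.natCast_nonneg F] : 0 < m)] at h1
          nlinarith
      rw [hw0, mul_zero] at e
      exact ⟨hf z hz e, hw0⟩)
    (μ := T.card) (by exact_mod_cast hTpos) (by exact_mod_cast ht2)
    (by
      intro a ha
      refine ⟨hR a (Finset.mem_filter.1 ha).1, ?_⟩
      obtain ⟨x, hx, e⟩ := hw a ha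
      rcases eq_or_ne m 0 with hm | hm
      · exact ⟨x, hx, 0, by simpa using hW0, by rw [e, hm]; ring⟩
      · exact ⟨x, hx, w a, hW a ha hm, e⟩)
  refine hC' _ K A hA hK _ X _ _ _ (hD.mono ?_)
  have hr' : (r : ℝ) ≤ n * Real.log (2 * K) := hr.trans (mul_le_mul_of_nonneg_right hn hlog0)
  calc (4 : ℝ) ^ r * T.card ≤ (2 * K) ^ (2 * n) * (n * K ^ n) :=
        mul_le_mul (four_pow hK1 hr') (hT.trans (hCK K hK1)) (Nat.cast_nonneg _) (by positivity)
    _ = ((4 ^ n * n : ℕ) : ℝ) * K ^ (3 * n) := by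
      rw [mul_pow, pow_mul 2 2 n]
      push_cast
      rw [show 3 * n = 2 * n + n by ring, pow_add]
      norm_num
      ring

/-- Q1 for the integers implies Q1 for all `ℤ ^ d`, uniformly. -/
theorem zd_of_int (C : ℝ) : ∃ C' : ℝ, Q1For C ℤ → ∀ d : ℕ, Q1For C' (Fin d → ℤ) := by
  classical
  obtain ⟨C', hC'⟩ := lift_concl C
  refine ⟨C', fun h d K A hA hK => ?_⟩
  obtain ⟨L, hL⟩ := hC' d K A hA hK
  obtain ⟨B, hB, hBK, hBA⟩ := hL 0 (Or.inl rfl)
  refine hBA ?_
  have h1 : Q1For C (ZMod 0) := h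
  exact h1 K B hB (by convert hBK)

/-- Q1 for arbitrarily large finite cyclic groups implies Q1 for all `ℤ ^ d`, uniformly. -/
theorem zd_of_cyc (C : ℝ) : ∃ C' : ℝ, (∀ L : ℕ, ∃ M : ℕ, L ≤ M ∧ Q1For C (ZMod M)) →
    ∀ d : ℕ, Q1For C' (Fin d → ℤ) := by
  classical
  obtain ⟨C', hC'⟩ := lift_concl C
  refine ⟨C', fun h d K A hA hK => ?_⟩
  obtain ⟨L, hL⟩ := hC' d K A hA hK
  obtain ⟨M, hLM, hM⟩ := h L
  obtain ⟨B, hB, hBK, hBA⟩ := hL M (Or.inr hLM)
  exact hBA (hM K B hB (by convert hBK))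

end Pool.Agent.N112.PR
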