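import Pool.Agent.N112.PR.Q1

/-!
# The equivalences
-/

set_option autoImplicit false

namespace Pool.Agent.N112.PR

open Finset Pool.Agent.Y806.DF Pool.Agent.R92.Star Pool.Agent.R424.EX
open scoped Pointwise

universe u

theorem q1_equiv {Γ Γ' : Type*} [AddCommGroup Γ] [DecidableEq Γ] [AddCommGroup Γ']
    [DecidableEq Γ'] (e : Γ ≃+ Γ') {C : ℝ} (h : Q1For C Γ) : Q1For C Γ' := by
  classical
  intro K A hA hK
  have hinj : Function.Injective e.symm.toAddMonoidHom := e.symm.injective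
  have hcard : (A.image e.symm.toAddMonoidHom).card = A.card :=
    Finset.card_image_of_injective _ hinj
  have h1 : Concl C K (A.image e.symm.toAddMonoidHom) := by
    refine h K _ (hA.image _) ?_
    rw [hcard, ← Finset.image_add e.symm.toAddMonoidHom,
      Finset.card_image_of_injective _ hinj]
    exact hK
  have h2 := concl_map e.toAddMonoidHom e.injective h1
  have h3 : (A.image e.symm.toAddMonoidHom).image e.toAddMonoidHom = A := by
    rw [Finset.image_image]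
    have : (⇑e.toAddMonoidHom ∘ ⇑e.symm.toAddMonoidHom) = id := by
      funext x
      exact e.apply_symm_apply x
    rw [this, Finset.image_id]
  rwa [h3] at h2

theorem int_of_zd {C : ℝ} (h : ∀ d : ℕ, Q1For C (Fin d → ℤ)) : Q1For C ℤ :=
  q1_equiv (LinearEquiv.funUnique (Fin 1) ℤ ℤ).toAddEquiv (h 1)

/-- Q1 for the integers and the weak form for a group give Q1 for the group. -/
theorem q1_pointwise (C : ℝ) (n : ℕ) : ∃ C' : ℝ, Q1For C ℤ →
    ∀ (Γ : Type u) [AddCommGroup Γ] [DecidableEq Γ], WeakN n Γ → Q1For C' Γ := by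
  obtain ⟨C₁, hC₁⟩ := zd_of_int C
  obtain ⟨C₂, hC₂⟩ := q1_of.{u} C₁ n
  exact ⟨C₂, fun h Γ _ _ hΓ => hC₂ (hC₁ h) Γ hΓ⟩

/-- all groups, the integers and the weak form for finite groups of odd order -/
theorem equiv_all : (∃ C : ℝ, ∀ (Γ : Type u) [AddCommGroup Γ] [DecidableEq Γ], Q1For C Γ) ↔
    (∃ C : ℝ, Q1For C ℤ) ∧ ∃ n : ℕ, ∀ (G : Type u) [AddCommGroup G] [DecidableEq G] [Finite G],
      Odd (Nat.card G) → WeakN n G := by
  classical
  constructor
  · rintro ⟨C, hC⟩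
    refine ⟨⟨C, ?_⟩, ?_⟩
    · have h1 : Q1For C (ULift.{u} ℤ) := hC (ULift.{u} ℤ)
      exact q1_equiv AddEquiv.ulift h1
    · obtain ⟨n, hn⟩ := weak_of_q1.{u} C
      exact ⟨n, fun G _ _ _ _ => hn G (hC G)⟩
  · rintro ⟨⟨C, hC⟩, ⟨n, hn⟩⟩
    obtain ⟨C₁, hC₁⟩ := zd_of_int C
    obtain ⟨m, hm⟩ := weak_all.{u} n
    obtain ⟨C₂, hC₂⟩ := q1_of.{u} C₁ m
    exact ⟨C₂, fun Γ _ _ => hC₂ (hC₁ hC) Γ (hm hn Γ)⟩

/-- all groups and finite groups of odd order -/
theorem equiv_odd : (∃ C : ℝ, ∀ (Γ : Type u) [AddCommGroup Γ] [DecidableEq Γ], Q1For C Γ) ↔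
    ∃ C : ℝ, ∀ (G : Type u) [AddCommGroup G] [DecidableEq G] [Finite G],
      Odd (Nat.card G) → Q1For C G := by
  classical
  constructor
  · rintro ⟨C, hC⟩
    exact ⟨C, fun G _ _ _ _ => hC G⟩
  · rintro ⟨C, hC⟩
    rw [equiv_all]
    constructor
    · obtain ⟨C₁, hC₁⟩ := zd_of_cyc C
      refine ⟨C₁, int_of_zd (hC₁ fun L => ⟨2 * L + 1, by omega, ?_⟩)⟩
      have hodd : Odd (Nat.card (ULift.{u} (ZMod (2 * L + 1)))) := by
        rw [Nat.card_ulift, Nat.card_zmod]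
        exact ⟨L, rfl⟩
      have h1 : Q1For C (ULift.{u} (ZMod (2 * L + 1))) := hC _ hodd
      exact q1_equiv AddEquiv.ulift h1
    · obtain ⟨n, hn⟩ := weak_of_q1.{u} C
      exact ⟨n, fun G _ _ _ hG => hn G (hC G hG)⟩

/-- the integers and large cyclic groups -/
theorem equiv_cyc (𝓜 : Set ℕ) (h𝓜 : 𝓜.Infinite) :
    (∃ C : ℝ, Q1For C ℤ) ↔ ∃ C : ℝ, ∀ M ∈ 𝓜, Q1For C (ZMod M) := by
  classical
  constructor
  · rintro ⟨C, hC⟩
    obtain ⟨C₁, hC₁⟩ := zd_of_int C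
    obtain ⟨C₂, hC₂⟩ := q1_of.{0} C₁ 2
    exact ⟨C₂, fun M _ => hC₂ (hC₁ hC) (ZMod M) (weak_cyc M)⟩
  · rintro ⟨C, hC⟩
    obtain ⟨C₁, hC₁⟩ := zd_of_cyc C
    refine ⟨C₁, int_of_zd (hC₁ fun L => ?_)⟩
    obtain ⟨M, hM, hLM⟩ := h𝓜.exists_gt L
    exact ⟨M, hLM.le, hC M hM⟩

/-- the integers and the groups whose elements of odd order are killed by `m` -/
theorem equiv_two (m : ℕ) (hm : 0 < m) :
    (∃ C : ℝ, Q1For C ℤ) ↔ ∃ C : ℝ, ∀ (Γ : Type u) [AddCommGroup Γ] [DecidableEq Γ],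
      (∀ x : Γ, (∃ k : ℕ, Odd k ∧ k • x = 0) → m • x = 0) → Q1For C Γ := by
  classical
  constructor
  · rintro ⟨C, hC⟩
    obtain ⟨C₁, hC₁⟩ := zd_of_int C
    obtain ⟨C₂, hC₂⟩ := q1_of.{u} C₁ 482
    obtain ⟨C₃, hC₃⟩ := Pool.Agent.R424.EX.ext.{u, u} C₂ m hm
    refine ⟨C₃, ?_⟩
    intro Γ _ _ htor K A hA hK
    have hbot : oddPart (Γ ⧸ oddPart Γ) = ⊥ := by
      rw [eq_bot_iff]
      intro x hx
      obtain ⟨k, hk, hx⟩ := hx
      obtain ⟨y, rfl⟩ := QuotientAddGroup.mk'_surjective (oddPart Γ) x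
      rw [← map_nsmul] at hx
      have h1 : k • y ∈ oddPart Γ := (QuotientAddGroup.eq_zero_iff _).1 hx
      obtain ⟨l, hl, h2⟩ := h1
      rw [AddSubgroup.mem_bot]
      refine (QuotientAddGroup.eq_zero_iff _).2 ⟨l * k, hl.mul hk, ?_⟩
      rw [mul_smul]
      exact h2
    have hQ : Q1For C₂ (Γ ⧸ oddPart Γ) := hC₂ (hC₁ hC) _ (weak_two _ hbot)
    refine hC₃ Γ (Γ ⧸ oddPart Γ) (QuotientAddGroup.mk' (oddPart Γ))
      (QuotientAddGroup.mk'_surjective _) ?_ K A hA hK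
      (hQ _ _ (hA.image _) (image_doubling _ hA hK))
    intro x hx
    exact htor x ((QuotientAddGroup.eq_zero_iff x).1 hx)
  · rintro ⟨C, hC⟩
    refine ⟨C, ?_⟩
    have h1 : Q1For C (ULift.{u} ℤ) := by
      refine hC (ULift.{u} ℤ) ?_
      rintro x ⟨k, hk, hx⟩
      have h2 : k • x.down = 0 := congrArg ULift.down hx
      rw [nsmul_eq_mul] at h2
      rcases mul_eq_zero.1 h2 with h3 | h3
      · have h4 : k = 0 := by exact_mod_cast h3
        have := hk.pos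
        omega
      · have h4 : x = 0 := ULift.ext _ _ h3
        rw [h4, smul_zero]
    exact q1_equiv AddEquiv.ulift h1

/-- rectification in an arbitrary abelian group, up to elements of odd order -/
theorem rectify {Γ : Type u} [AddCommGroup Γ] [DecidableEq Γ] (K : ℝ) (A : Finset Γ)
    (hA : A.Nonempty) (hK : ((A + A).card : ℝ) ≤ K * A.card) (s : ℕ) :
    ∃ (H : AddSubgroup Γ) (d : ℕ) (ψ : (Fin d → ℤ) →+ Γ) (g : Γ)
      (X : Finset ((Fin d → ℤ) × Γ)), Finite H ∧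
      (((A : Set Γ) + (H : Set Γ)).ncard : ℝ) ≤ 2 * K ^ 370 * A.card ∧
      (d : ℝ) ≤ 480 * Real.log K + 1 ∧
      (A.card : ℝ) ≤ K ^ 185 * (s + 3) ^ d * (Nat.card H * X.card) ∧
      (∀ p ∈ X, p.2 ∈ oddPart Γ ∧ ∃ a ∈ A, a - (g + ψ p.1 + p.2) ∈ H) ∧
      (∀ p ∈ X, ∀ q ∈ X, (ψ p.1 + p.2) - (ψ q.1 + q.2) ∈ H → p = q) ∧
      ∀ u v : Fin s → (Fin d → ℤ) × Γ, (∀ i, u i ∈ X) → (∀ i, v i ∈ X) →
        ∑ i, (ψ (u i).1 + (u i).2) - ∑ i, (ψ (v i).1 + (v i).2) ∈ H →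
        ∑ i, (u i).1 = ∑ i, (v i).1 ∧ ∑ i, (u i).2 - ∑ i, (v i).2 ∈ H := by
  classical
  have hK1 := one_le_K hA hK
  have hK0 : 0 < K := by linarith
  obtain ⟨P, S, T, hP, hAP, hS, hT, hcov⟩ := wm' K A hA hK
  obtain ⟨ψ₀, hψ₀⟩ := gen_hom S
  set π := QuotientAddGroup.mk' P with hπ
  have hker : ∀ x, π x = 0 ↔ x ∈ P := fun x => QuotientAddGroup.eq_zero_iff x
  obtain ⟨t, ht, ht2⟩ := pigeon T A A hA
    (fun t a => ∃ o ∈ oddPart Γ, a - t - o ∈ P ⊔ AddSubgroup.closure (S : Set Γ)) subset_rfl hcov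
  set A' := A.filter (fun a => ∃ o ∈ oddPart Γ, a - t - o ∈ P ⊔ AddSubgroup.closure (S : Set Γ))
    with hA'
  have hA'ne : A'.Nonempty := by
    rw [← Finset.card_pos]
    by_contra hcon
    have h0 : A'.card = 0 := by omega
    rw [h0, mul_zero] at ht2
    have := hA.card_pos
    omega
  obtain ⟨X, -, hXcard, hX, hinj, hF⟩ := rect' ((oddPart Γ).map π) (π.comp ψ₀) (π t) (A'.image π)
    (hA'ne.image _) (by
      intro x hx
      obtain ⟨a, ha, rfl⟩ := Finset.mem_image.1 hx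
      obtain ⟨o, ho, h⟩ := (Finset.mem_filter.1 ha).2
      obtain ⟨p, hp, w, hw, e⟩ := AddSubgroup.mem_sup.1 h
      obtain ⟨y, rfl⟩ := hψ₀ hw
      refine ⟨y, o, ho, ?_⟩
      have e1 : a = t + o + p + ψ₀ y := by
        have e2 : a = t + o + (a - t - o) := by abel
        rw [e2, ← e]
        abel
      show π o = π a - π t - π (ψ₀ y)
      rw [e1, map_add, map_add, map_add, (hker p).2 hp]
      abel) s
  -- representatives
  have hrep : ∀ p : (Fin S.card → ℤ) × (Γ ⧸ P), ∃ o : Γ, p ∈ X → o ∈ oddPart Γ ∧ π o = p.2 := by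
    intro p
    by_cases hp : p ∈ X
    · obtain ⟨o, ho, e⟩ := (hX p hp).1
      exact ⟨o, fun _ => ⟨ho, e⟩⟩
    · exact ⟨0, fun h => absurd h hp⟩
  choose o ho using hrep
  have hcardX : (X.image fun p => (p.1, o p)).card = X.card := by
    refine Finset.card_image_of_injOn ?_
    intro p hp q hq e
    have e1 : p.1 = q.1 := (Prod.mk.inj e).1
    have e2 : o p = o q := (Prod.mk.inj e).2
    refine Prod.ext e1 ?_
    rw [← (ho p hp).2, ← (ho q hq).2, e2]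
  refine ⟨P, S.card, ψ₀, t, X.image fun p => (p.1, o p), hP, hAP, hS, ?_, ?_, ?_, ?_⟩
  · have h1 : A'.card ≤ Nat.card P * (A'.image π).card := by
      have h2 := ncard_cosets P (A' : Set Γ)
      rw [← hπ, ← Finset.coe_image, Set.ncard_coe_finset, ncard_add_fs] at h2
      rw [← h2]
      exact Finset.card_le_card_add_right (fs_ne P)
    have h3 : A.card ≤ T.card * (Nat.card P * ((s + 3) ^ S.card * X.card)) :=
      ht2.trans (Nat.mul_le_mul_left _ (h1.trans (Nat.mul_le_mul_left _ hXcard)))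
    rw [hcardX]
    calc (A.card : ℝ) ≤ ((T.card * (Nat.card P * ((s + 3) ^ S.card * X.card)) : ℕ) : ℝ) := by
          exact_mod_cast h3
      _ = (T.card : ℝ) * ((s + 3) ^ S.card * (Nat.card P * X.card)) := by
        push_cast
        ring
      _ ≤ K ^ 185 * ((s + 3) ^ S.card * (Nat.card P * X.card)) :=
        mul_le_mul_of_nonneg_right hT (by positivity)
      _ = _ := by ring
  · intro q hq
    obtain ⟨p, hp, rfl⟩ := Finset.mem_image.1 hq
    refine ⟨(ho p hp).1, ?_⟩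
    obtain ⟨a, ha, e⟩ := Finset.mem_image.1 (hX p hp).2
    refine ⟨a, (Finset.mem_filter.1 ha).1, ?_⟩
    show a - (t + ψ₀ p.1 + o p) ∈ P
    rw [← hker, map_sub, map_add, map_add, (ho p hp).2, e]
    exact sub_self _
  · intro q hq q' hq' e
    obtain ⟨p, hp, rfl⟩ := Finset.mem_image.1 hq
    obtain ⟨p', hp', rfl⟩ := Finset.mem_image.1 hq'
    have h1 : π ((ψ₀ p.1 + o p) - (ψ₀ p'.1 + o p')) = 0 := (hker _).2 e
    rw [map_sub, map_add, map_add, (ho p hp).2, (ho p' hp').2, sub_eq_zero] at h1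
    rw [hinj p hp p' hp' h1]
  · intro u v hu hv e
    have hu' : ∀ i, ∃ p ∈ X, (p.1, o p) = u i := fun i => Finset.mem_image.1 (hu i)
    have hv' : ∀ i, ∃ p ∈ X, (p.1, o p) = v i := fun i => Finset.mem_image.1 (hv i)
    choose u' hu1 hu2 using hu'
    choose v' hv1 hv2 using hv'
    have h1 : π (∑ i, (ψ₀ (u i).1 + (u i).2) - ∑ i, (ψ₀ (v i).1 + (v i).2)) = 0 := (hker _).2 e
    rw [map_sub, map_sum, map_sum, sub_eq_zero] at h1
    have h2 : ∀ i, π (ψ₀ (u i).1 + (u i).2) = (π.comp ψ₀) (u' i).1 + (u' i).2 := by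
      intro i
      rw [← hu2 i, map_add, (ho _ (hu1 i)).2]
      rfl
    have h3 : ∀ i, π (ψ₀ (v i).1 + (v i).2) = (π.comp ψ₀) (v' i).1 + (v' i).2 := by
      intro i
      rw [← hv2 i, map_add, (ho _ (hv1 i)).2]
      rfl
    simp only [h2, h3] at h1
    rw [Finset.sum_add_distrib, Finset.sum_add_distrib, ← map_sum, ← map_sum] at h1
    have h4 := hF u' v' hu1 hv1 h1
    have h5 : ∑ i, (u' i).1 = ∑ i, (v' i).1 := by
      have := congrArg Prod.fst h4
      rwa [Prod.fst_sum, Prod.fst_sum] at this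
    have h6 : ∑ i, (u' i).2 = ∑ i, (v' i).2 := by
      have := congrArg Prod.snd h4
      rwa [Prod.snd_sum, Prod.snd_sum] at this
    constructor
    · have e1 : ∀ i, (u i).1 = (u' i).1 := fun i => by rw [← hu2 i]
      have e2 : ∀ i, (v i).1 = (v' i).1 := fun i => by rw [← hv2 i]
      simp only [e1, e2]
      exact h5
    · have e1 : ∀ i, π (u i).2 = (u' i).2 := fun i => by rw [← hu2 i]; exact (ho _ (hu1 i)).2
      have e2 : ∀ i, π (v i).2 = (v' i).2 := fun i => by rw [← hv2 i]; exact (ho _ (hv1 i)).2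
      rw [← hker, map_sub, map_sum, map_sum]
      simp only [e1, e2]
      rw [h6, sub_self]

end Pool.Agent.N112.PR
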