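import Pool.Agent.R424.EX.Link

/-!
# The integers and the lattices `ℤ ^ d`

A set of integer points, given through its image under a linear form which is injective on a large
box, possibly modulo a large integer: a convex progression for the image lifts to the graph.
-/

set_option autoImplicit false

namespace Pool.Agent.N112.PR

open Finset Pool.Agent.Y806.DF Pool.Agent.R92.Star Pool.Agent.R424.EX
open scoped Pointwise

universe u

section model

variable {r d : ℕ}

/-- an enumeration of the coordinates -/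
noncomputable def ix (r d : ℕ) : Fin r ⊕ (Fin d ⊕ Unit) ≃ Fin (r + (d + 1)) :=
  Fintype.equivFinOfCardEq (by simp)

/-- the first `r` coordinates -/
noncomputable def bp {R : Type*} (v : Fin (r + (d + 1)) → R) : Fin r → R :=
  fun i => v (ix r d (Sum.inl i))

/-- the next `d` coordinates -/
noncomputable def zp {R : Type*} (v : Fin (r + (d + 1)) → R) : Fin d → R :=
  fun i => v (ix r d (Sum.inr (Sum.inl i)))

/-- the last coordinate -/
noncomputable def wp {R : Type*} (v : Fin (r + (d + 1)) → R) : R :=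
  v (ix r d (Sum.inr (Sum.inr ())))

theorem ext_parts {R : Type*} {v v' : Fin (r + (d + 1)) → R} (h1 : bp v = bp v') (h2 : zp v = zp v')
    (h3 : wp v = wp v') : v = v' := by
  funext k
  obtain ⟨j, rfl⟩ := (ix r d).surjective k
  rcases j with i | i | i
  · exact congrFun h1 i
  · exact congrFun h2 i
  · exact h3

/-- a vector with given parts -/
noncomputable def mk {R : Type*} (b : Fin r → R) (z : Fin d → R) (w : R) :
    Fin (r + (d + 1)) → R := fun k =>
  Sum.elim b (Sum.elim z (fun _ => w)) ((ix r d).symm k)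

theorem bp_mk {R : Type*} (b : Fin r → R) (z : Fin d → R) (w : R) : bp (mk b z w) = b := by
  funext i
  simp [bp, mk]

theorem zp_mk {R : Type*} (b : Fin r → R) (z : Fin d → R) (w : R) : zp (mk b z w) = z := by
  funext i
  simp [zp, mk]

theorem wp_mk {R : Type*} (b : Fin r → R) (z : Fin d → R) (w : R) : wp (mk b z w) = w := by
  simp [wp, mk]

/-- the middle part as a homomorphism -/
noncomputable def zpHom (r d : ℕ) : (Fin (r + (d + 1)) → ℤ) →+ (Fin d → ℤ) where
  toFun := zp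
  map_zero' := rfl
  map_add' _ _ := rfl

/-- the graph -/
def Kset (B : Set (Fin r → ℝ)) (R W : ℤ) (f : Fin d → ℤ) (c : Fin r → ℤ) (t m : ℤ) :
    Set (Fin (r + (d + 1)) → ℝ) :=
  {y | bp y ∈ B ∧ (∀ i, |zp y i| ≤ R) ∧ |wp y| ≤ W ∧
    ∑ i, (f i : ℝ) * zp y i = t + ∑ i, (c i : ℝ) * bp y i + m * wp y}

theorem Kset_convex {B : Set (Fin r → ℝ)} (hB : Convex ℝ B) (R W : ℤ) (f : Fin d → ℤ)
    (c : Fin r → ℤ) (t m : ℤ) : Convex ℝ (Kset B R W f c t m) := by
  intro x hx y hy a b ha hb hab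
  obtain ⟨hx1, hx2, hx3, hx4⟩ := hx
  obtain ⟨hy1, hy2, hy3, hy4⟩ := hy
  have habs : ∀ (p q C : ℝ), |p| ≤ C → |q| ≤ C → |a * p + b * q| ≤ C := by
    intro p q C hp hq
    calc |a * p + b * q| ≤ |a * p| + |b * q| := abs_add_le _ _
      _ = a * |p| + b * |q| := by rw [abs_mul, abs_mul, abs_of_nonneg ha, abs_of_nonneg hb]
      _ ≤ a * C + b * C := add_le_add (mul_le_mul_of_nonneg_left hp ha)
          (mul_le_mul_of_nonneg_left hq hb)
      _ = C := by rw [← add_mul, hab, one_mul]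
  refine ⟨hB hx1 hy1 ha hb hab, fun i => habs _ _ _ (hx2 i) (hy2 i), habs _ _ _ hx3 hy3, ?_⟩
  have e1 : ∑ i, (f i : ℝ) * zp (a • x + b • y) i =
      a * ∑ i, (f i : ℝ) * zp x i + b * ∑ i, (f i : ℝ) * zp y i := by
    rw [Finset.mul_sum, Finset.mul_sum, ← Finset.sum_add_distrib]
    refine Finset.sum_congr rfl fun i _ => ?_
    show (f i : ℝ) * (a * zp x i + b * zp y i) = _
    ring
  have e2 : ∑ i, (c i : ℝ) * bp (a • x + b • y) i =
      a * ∑ i, (c i : ℝ) * bp x i + b * ∑ i, (c i : ℝ) * bp y i := by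
    rw [Finset.mul_sum, Finset.mul_sum, ← Finset.sum_add_distrib]
    refine Finset.sum_congr rfl fun i _ => ?_
    show (c i : ℝ) * (a * bp x i + b * bp y i) = _
    ring
  have e3 : wp (a • x + b • y) = a * wp x + b * wp y := rfl
  rw [e1, e2, e3, hx4, hy4]
  have e4 : (t : ℝ) = a * t + b * t := by rw [← add_mul, hab, one_mul]
  conv_rhs => rw [e4]
  ring

theorem mem_lat_Kset {B : Set (Fin r → ℝ)} {R W : ℤ} {f : Fin d → ℤ}
    {c : Fin r → ℤ} {t m : ℤ} {v : Fin (r + (d + 1)) → ℤ} :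
    v ∈ lat (Kset B R W f c t m) ↔ bp v ∈ lat B ∧ (∀ i, |zp v i| ≤ R) ∧ |wp v| ≤ W ∧
      ∑ i, f i * zp v i = t + ∑ i, c i * bp v i + m * wp v := by
  show (bp (re v) ∈ B ∧ (∀ i, |zp (re v) i| ≤ R) ∧ |wp (re v)| ≤ W ∧
    ∑ i, (f i : ℝ) * zp (re v) i = t + ∑ i, (c i : ℝ) * bp (re v) i + m * wp (re v)) ↔ _
  have e1 : bp (re v) = re (bp v) := rfl
  have e2 : ∀ i, zp (re v) i = ((zp v i : ℤ) : ℝ) := fun i => rfl
  have e3 : wp (re v) = ((wp v : ℤ) : ℝ) := rfl
  have e4 : ∀ i, bp (re v) i = ((bp v i : ℤ) : ℝ) := fun i => rfl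
  refine and_congr (by rw [e1]; exact Iff.rfl) (and_congr ?_ (and_congr ?_ ?_))
  · refine forall_congr' fun i => ?_
    rw [e2]
    exact_mod_cast Iff.rfl
  · rw [e3]
    exact_mod_cast Iff.rfl
  · simp only [e2, e3, e4]
    exact_mod_cast Iff.rfl

/-- **A convex progression for the image lifts to the graph.** -/
theorem model_data {A A' : Finset (Fin d → ℤ)} (hA' : A'.Nonempty) (hsub : A' ⊆ A)
    {B : Set (Fin r → ℝ)} (hB : Body B) (hvol : (lat B).ncard ≤ A.card)
    (R W : ℤ) (f : Fin d → ℤ) (c : Fin r → ℤ) (t m : ℤ)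
    (hU : ∀ (z : Fin d → ℤ) (w : ℤ), (∀ i, |z i| ≤ 4 * R) → |w| ≤ 4 * W →
      ∑ i, f i * z i = m * w → z = 0 ∧ w = 0)
    {μ : ℝ} (h1μ : 1 ≤ μ) (hμ : (A.card : ℝ) ≤ μ * A'.card)
    (h : ∀ a ∈ A', (∀ i, |a i| ≤ R) ∧ ∃ x ∈ lat B, ∃ w : ℤ, |w| ≤ W ∧
      ∑ i, f i * a i = t + ∑ i, c i * x i + m * w) :
    ∃ X : Finset (Fin (r + (d + 1)) → ℤ), Data (4 ^ r * μ) A X (zpHom r d) ⊥ 0 := by
  classical
  have hsym : Sym B := ⟨hB.1, hB.2.1, hB.2.2.2, hB.2.2.1.mono interior_subset⟩
  have hfinB : (lat B).Finite := lat_finite hB.2.1.isBounded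
  have huniq : ∀ v v' : Fin (r + (d + 1)) → ℤ, (∀ i, |zp v i| ≤ 2 * R) → (∀ i, |zp v' i| ≤ 2 * R) →
      |wp v| ≤ 2 * W → |wp v'| ≤ 2 * W → ∀ s : ℤ,
      ∑ i, f i * zp v i = s + ∑ i, c i * bp v i + m * wp v →
      ∑ i, f i * zp v' i = s + ∑ i, c i * bp v' i + m * wp v' → bp v = bp v' → v = v' := by
    intro v v' h1 h2 h3 h4 s h5 h6 h7
    obtain ⟨e1, e2⟩ := hU (zp v - zp v') (wp v - wp v')
      (fun i => by
        have := abs_le.1 (h1 i)
        have := abs_le.1 (h2 i)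
        rw [Pi.sub_apply, abs_le]
        constructor <;> linarith)
      (by
        have := abs_le.1 h3
        have := abs_le.1 h4
        rw [abs_le]
        constructor <;> linarith)
      (by
        have e : ∑ i, f i * (zp v - zp v') i = ∑ i, f i * zp v i - ∑ i, f i * zp v' i := by
          rw [← Finset.sum_sub_distrib]
          exact Finset.sum_congr rfl fun i _ => by rw [Pi.sub_apply]; ring
        rw [e, h5, h6, h7]
        ring)
    exact ext_parts h7 (sub_eq_zero.1 e1) (sub_eq_zero.1 e2)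
  have hR0 : 0 ≤ R ∨ d = 0 := by
    rcases Nat.eq_zero_or_pos d with hd | hd
    · exact Or.inr hd
    · left
      obtain ⟨a, ha⟩ := hA'
      exact (abs_nonneg _).trans ((h a ha).1 ⟨0, hd⟩)
  have hW0 : 0 ≤ W := by
    obtain ⟨a, ha⟩ := hA'
    obtain ⟨-, x, -, w, hw, -⟩ := h a ha
    exact (abs_nonneg _).trans hw
  have hbig : ∀ v ∈ lat (Kset B R W f c t m), (∀ i, |zp v i| ≤ 2 * R) ∧ |wp v| ≤ 2 * W := by
    intro v hv
    obtain ⟨-, h2, h3, -⟩ := mem_lat_Kset.1 hv
    refine ⟨fun i => ?_, by linarith⟩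
    have := (abs_nonneg _).trans (h2 i)
    linarith [h2 i]
  have hinj : Set.InjOn (bp : (Fin (r + (d + 1)) → ℤ) → (Fin r → ℤ)) (lat (Kset B R W f c t m)) := by
    intro v hv v' hv' hvv
    obtain ⟨h1, h2⟩ := hbig v hv
    obtain ⟨h3, h4⟩ := hbig v' hv'
    exact huniq v v' h1 h3 h2 h4 t (mem_lat_Kset.1 hv).2.2.2 (mem_lat_Kset.1 hv').2.2.2 hvv
  have hmaps : Set.MapsTo (bp : (Fin (r + (d + 1)) → ℤ) → (Fin r → ℤ))
      (lat (Kset B R W f c t m)) (lat B) := fun v hv => (mem_lat_Kset.1 hv).1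
  have hfin : (lat (Kset B R W f c t m)).Finite := Set.Finite.of_injOn hmaps hinj hfinB
  set X := hfin.toFinset with hX
  have hmemX : ∀ v, v ∈ X ↔ v ∈ lat (Kset B R W f c t m) := fun v => Set.Finite.mem_toFinset _
  have hXB : X.card ≤ (lat B).ncard := by
    rw [Set.ncard_eq_toFinset_card _ hfinB]
    refine Finset.card_le_card_of_injOn bp ?_ ?_
    · intro v hv
      rw [Finset.mem_coe, Set.Finite.mem_toFinset]
      exact hmaps ((hmemX v).1 (Finset.mem_coe.1 hv))
    · intro v hv v' hv' hvv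
      exact hinj ((hmemX v).1 hv) ((hmemX v').1 hv') hvv
  -- the elements of `A'`
  have hlift : ∀ a ∈ A', ∃ v ∈ X, zp v = a := by
    intro a ha
    obtain ⟨h1, x, hx, w, hw, e⟩ := h a ha
    refine ⟨mk x a w, ?_, zp_mk _ _ _⟩
    rw [hmemX, mem_lat_Kset, bp_mk, zp_mk, wp_mk]
    exact ⟨hx, h1, hw, e⟩
  have hA'X : A'.card ≤ X.card := by
    have h1 : A' ⊆ X.image zp := by
      intro a ha
      obtain ⟨v, hv, e⟩ := hlift a ha
      exact Finset.mem_image.2 ⟨v, hv, e⟩
    exact (Finset.card_le_card h1).trans Finset.card_image_le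
  have h4r : (1 : ℝ) ≤ 4 ^ r := one_le_pow₀ (by norm_num)
  have h4μ : (1 : ℝ) ≤ 4 ^ r * μ := by nlinarith
  refine ⟨X, ⟨?_, inferInstance, ?_, ?_, ?_, ?_⟩⟩
  · obtain ⟨a, ha⟩ := hA'
    obtain ⟨v, hv, -⟩ := hlift a ha
    exact ⟨v, hv⟩
  · -- doubling
    have h1 : (X + X).card ≤ num B 2 := by
      rw [num, Set.ncard_eq_toFinset_card _ (hsym.finite 2)]
      refine Finset.card_le_card_of_injOn bp ?_ ?_
      · intro v hv
        obtain ⟨p, hp, q, hq, rfl⟩ := Finset.mem_add.1 (Finset.mem_coe.1 hv)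
        rw [Finset.mem_coe, Set.Finite.mem_toFinset]
        have hp' : bp p ∈ lat ((1 : ℝ) • B) := by rw [one_smul]; exact hmaps ((hmemX p).1 hp)
        have hq' : bp q ∈ lat ((1 : ℝ) • B) := by rw [one_smul]; exact hmaps ((hmemX q).1 hq)
        have h2 := hsym.add (by norm_num) (by norm_num) hp' hq'
        norm_num at h2
        exact h2
      · intro v hv v' hv' hvv
        obtain ⟨p, hp, q, hq, rfl⟩ := Finset.mem_add.1 (Finset.mem_coe.1 hv)
        obtain ⟨p', hp', q', hq', rfl⟩ := Finset.mem_add.1 (Finset.mem_coe.1 hv')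
        obtain ⟨-, a1, a2, a3⟩ := mem_lat_Kset.1 ((hmemX p).1 hp)
        obtain ⟨-, b1, b2, b3⟩ := mem_lat_Kset.1 ((hmemX q).1 hq)
        obtain ⟨-, c1, c2, c3⟩ := mem_lat_Kset.1 ((hmemX p').1 hp')
        obtain ⟨-, d1, d2, d3⟩ := mem_lat_Kset.1 ((hmemX q').1 hq')
        have hz : ∀ (p q : Fin (r + (d + 1)) → ℤ), (∀ i, |zp p i| ≤ R) → (∀ i, |zp q i| ≤ R) →
            ∀ i, |zp (p + q) i| ≤ 2 * R := by
          intro p q h1 h2 i
          show |zp p i + zp q i| ≤ 2 * R
          have := abs_le.1 (h1 i)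
          have := abs_le.1 (h2 i)
          rw [abs_le]
          constructor <;> linarith
        have hw : ∀ (p q : Fin (r + (d + 1)) → ℤ), |wp p| ≤ W → |wp q| ≤ W →
            |wp (p + q)| ≤ 2 * W := by
          intro p q h1 h2
          show |wp p + wp q| ≤ 2 * W
          have := abs_le.1 h1
          have := abs_le.1 h2
          rw [abs_le]
          constructor <;> linarith
        have he : ∀ (p q : Fin (r + (d + 1)) → ℤ),
            ∑ i, f i * zp p i = t + ∑ i, c i * bp p i + m * wp p →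
            ∑ i, f i * zp q i = t + ∑ i, c i * bp q i + m * wp q →
            ∑ i, f i * zp (p + q) i = 2 * t + ∑ i, c i * bp (p + q) i + m * wp (p + q) := by
          intro p q h1 h2
          have e1 : ∑ i, f i * zp (p + q) i = ∑ i, f i * zp p i + ∑ i, f i * zp q i := by
            rw [← Finset.sum_add_distrib]
            exact Finset.sum_congr rfl fun i _ => by
              show f i * (zp p i + zp q i) = _
              ring
          have e2 : ∑ i, c i * bp (p + q) i = ∑ i, c i * bp p i + ∑ i, c i * bp q i := by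
            rw [← Finset.sum_add_distrib]
            exact Finset.sum_congr rfl fun i _ => by
              show c i * (bp p i + bp q i) = _
              ring
          have e3 : wp (p + q) = wp p + wp q := rfl
          rw [e1, e2, e3, h1, h2]
          ring
        exact huniq _ _ (hz p q a1 b1) (hz p' q' c1 d1) (hw p q a2 b2) (hw p' q' c2 d2) (2 * t)
          (he p q a3 b3) (he p' q' c3 d3) hvv
    have h2 : num B 2 ≤ 4 ^ r * (lat B).ncard := by
      have h3 := num_double hsym (t := 1) (by norm_num)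
      rw [mul_one] at h3
      have h4 : num B 1 = (lat B).ncard := by rw [num, one_smul]
      rwa [h4] at h3
    have h3 : (X + X).card ≤ 4 ^ r * A.card := (h1.trans h2).trans (Nat.mul_le_mul_left _ hvol)
    have h4 : (A.card : ℝ) ≤ μ * X.card := hμ.trans
      (mul_le_mul_of_nonneg_left (by exact_mod_cast hA'X) (by linarith))
    calc ((X + X).card : ℝ) ≤ ((4 ^ r * A.card : ℕ) : ℝ) := by exact_mod_cast h3
      _ = (4 : ℝ) ^ r * A.card := by push_cast; rfl
      _ ≤ 4 ^ r * (μ * X.card) := mul_le_mul_of_nonneg_left h4 (by positivity)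
      _ = 4 ^ r * μ * X.card := by ring
  · -- dense
    have h1 : hull X ⊆ (X : Set (Fin (r + (d + 1)) → ℤ)) := by
      intro v hv
      rw [Finset.mem_coe, hmemX]
      refine convexHull_min ?_ (Kset_convex hsym.conv R W f c t m) hv
      rintro _ ⟨x, hx, rfl⟩
      exact (hmemX x).1 (Finset.mem_coe.1 hx)
    have h2 := Set.ncard_le_ncard h1 (Finset.finite_toSet _)
    rw [Set.ncard_coe_finset] at h2
    calc ((hull X).ncard : ℝ) ≤ 1 * X.card := by rw [one_mul]; exact_mod_cast h2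
      _ ≤ _ := mul_le_mul_of_nonneg_right h4μ (Nat.cast_nonneg _)
  · rw [AddSubgroup.card_bot, Nat.cast_one, mul_one]
    calc (X.card : ℝ) ≤ 1 * A.card := by rw [one_mul]; exact_mod_cast hXB.trans hvol
      _ ≤ _ := mul_le_mul_of_nonneg_right h4μ (Nat.cast_nonneg _)
  · have h1 : A' ⊆ A.filter (fun a => ∃ x ∈ X, ∃ h ∈ (⊥ : AddSubgroup (Fin d → ℤ)),
        a = 0 + (zpHom r d) x + h) := by
      intro a ha
      obtain ⟨v, hv, e⟩ := hlift a ha
      refine Finset.mem_filter.2 ⟨hsub ha, v, hv, 0, AddSubgroup.zero_mem _, ?_⟩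
      show a = 0 + zp v + 0
      rw [e, zero_add, add_zero]
    have h2 : {a : Fin d → ℤ | a ∈ A ∧ ∃ x ∈ X, ∃ h ∈ (⊥ : AddSubgroup (Fin d → ℤ)),
        a = 0 + (zpHom r d) x + h} =
        ((A.filter (fun a => ∃ x ∈ X, ∃ h ∈ (⊥ : AddSubgroup (Fin d → ℤ)),
        a = 0 + (zpHom r d) x + h) : Finset (Fin d → ℤ)) : Set (Fin d → ℤ)) := by
      rw [Finset.coe_filter]
    rw [h2, Set.ncard_coe_finset]
    have h3 := Finset.card_le_card h1
    calc (A.card : ℝ) ≤ μ * A'.card := hμ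
      _ ≤ μ * (A.filter (fun a => ∃ x ∈ X, ∃ h ∈ (⊥ : AddSubgroup (Fin d → ℤ)),
        a = 0 + (zpHom r d) x + h)).card :=
          mul_le_mul_of_nonneg_left (by exact_mod_cast h3) (by linarith)
      _ ≤ _ := by
        refine mul_le_mul_of_nonneg_right ?_ (Nat.cast_nonneg _)
        nlinarith

end model

end Pool.Agent.N112.PR
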