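import Mathlib

/-!
# Shortest representatives

Rectification of a finite set in a group generated by `d` elements and a subgroup `O`: a part of
relative density `(s + 3)⁻ᵈ` is Freiman isomorphic of order `s` to a subset of `ℤ ^ d × O`.
-/

set_option autoImplicit false

namespace Pool.Agent.N112.PR

open Finset

/-- a nearest point of a lattice -/
theorem nearest {d : ℕ} (Λ : AddSubgroup (Fin d → ℤ)) (x : Fin d → ℤ) :
    ∃ l ∈ Λ, ∀ μ ∈ Λ, |2 * ((x - l) ⬝ᵥ μ)| ≤ μ ⬝ᵥ μ := by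
  obtain ⟨l, hl, hmin⟩ := WellFounded.has_min
    (InvImage.wf (fun l : Fin d → ℤ => ((x - l) ⬝ᵥ (x - l)).toNat) Nat.lt_wfRel.wf)
    (Λ : Set (Fin d → ℤ)) ⟨0, Λ.zero_mem⟩
  have hnn : ∀ y : Fin d → ℤ, 0 ≤ y ⬝ᵥ y := fun y =>
    Finset.sum_nonneg fun i _ => mul_self_nonneg (y i)
  have hle : ∀ l' ∈ Λ, (x - l) ⬝ᵥ (x - l) ≤ (x - l') ⬝ᵥ (x - l') := by
    intro l' hl'
    have h1 : ¬ ((x - l') ⬝ᵥ (x - l')).toNat < ((x - l) ⬝ᵥ (x - l)).toNat := hmin l' hl'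
    have h2 := hnn (x - l)
    have h3 := hnn (x - l')
    omega
  refine ⟨l, hl, fun μ hμ => ?_⟩
  have h1 := hle (l + μ) (Λ.add_mem hl hμ)
  have h2 := hle (l - μ) (Λ.sub_mem hl hμ)
  have key : ∀ y : Fin d → ℤ, (y - μ) ⬝ᵥ (y - μ) = y ⬝ᵥ y - 2 * (y ⬝ᵥ μ) + μ ⬝ᵥ μ := by
    intro y
    rw [sub_dotProduct, dotProduct_sub, dotProduct_sub, dotProduct_comm μ y]
    ring
  have key2 : ∀ y : Fin d → ℤ, (y + μ) ⬝ᵥ (y + μ) = y ⬝ᵥ y + 2 * (y ⬝ᵥ μ) + μ ⬝ᵥ μ := by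
    intro y
    rw [add_dotProduct, dotProduct_add, dotProduct_add, dotProduct_comm μ y]
    ring
  have e1 := key (x - l)
  have e2 := key2 (x - l)
  rw [show x - (l + μ) = (x - l) - μ by abel] at h1
  rw [show x - (l - μ) = (x - l) + μ by abel] at h2
  rw [abs_le]
  constructor <;> linarith

/-- the number of short lattice points -/
theorem count {d : ℕ} (Λ : AddSubgroup (Fin d → ℤ)) (k : ℕ) (L : Finset (Fin d → ℤ))
    (hL : ∀ l ∈ L, l ∈ Λ) (h : ∀ l ∈ L, ∀ μ ∈ Λ, |2 * (l ⬝ᵥ μ)| ≤ k * (μ ⬝ᵥ μ)) :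
    L.card ≤ (k + 1) ^ d := by
  classical
  let S : Submodule ℤ (Fin d → ℤ) := AddSubgroup.toIntSubmodule Λ
  have hS : ∀ x, x ∈ S ↔ x ∈ Λ := fun x => Iff.rfl
  let b := Module.finBasis ℤ S
  have hr : Module.finrank ℤ S ≤ d := by
    have := Submodule.finrank_le S
    rwa [Module.finrank_fin_fun] at this
  let f : L → (Fin (Module.finrank ℤ S) → ZMod (k + 1)) := fun l i =>
    ((b.repr ⟨l.1, (hS _).2 (hL l.1 l.2)⟩ i : ℤ) : ZMod (k + 1))
  have hinj : Function.Injective f := by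
    intro l l' hll
    have hdvd : ∀ i, ∃ c : ℤ, b.repr ⟨l.1, (hS _).2 (hL l.1 l.2)⟩ i -
        b.repr ⟨l'.1, (hS _).2 (hL l'.1 l'.2)⟩ i = ((k + 1 : ℕ) : ℤ) * c := by
      intro i
      have h1 := congrFun hll i
      have h2 := (ZMod.intCast_eq_intCast_iff_dvd_sub _ _ (k + 1)).1 h1.symm
      exact h2
    choose c hc using hdvd
    let μ : S := ∑ i, c i • b i
    have h1 : (⟨l.1, (hS _).2 (hL l.1 l.2)⟩ : S) - ⟨l'.1, (hS _).2 (hL l'.1 l'.2)⟩ =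
        ((k + 1 : ℕ) : ℤ) • μ := by
      apply b.repr.injective
      ext i
      rw [map_sub, Finsupp.sub_apply, hc i, map_smul, Finsupp.smul_apply]
      congr 1
      show c i = b.repr (∑ i, c i • b i) i
      rw [Module.Basis.repr_sum_self]
    have h2 : l.1 - l'.1 = ((k + 1 : ℕ) : ℤ) • μ.1 := congrArg Subtype.val h1
    have hμ : μ.1 ∈ Λ := (hS _).1 μ.2
    have h3 := abs_le.1 (h l.1 l.2 μ.1 hμ)
    have h4 := abs_le.1 (h l'.1 l'.2 μ.1 hμ)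
    have h5 : (l.1 - l'.1) ⬝ᵥ μ.1 = ((k + 1 : ℕ) : ℤ) * (μ.1 ⬝ᵥ μ.1) := by
      rw [h2, smul_dotProduct, smul_eq_mul]
    rw [sub_dotProduct] at h5
    have h6 : μ.1 ⬝ᵥ μ.1 ≤ 0 := by
      push_cast at h5
      nlinarith
    have h7 : 0 ≤ μ.1 ⬝ᵥ μ.1 := Finset.sum_nonneg fun i _ => mul_self_nonneg (μ.1 i)
    have h8 : μ.1 = 0 := dotProduct_self_eq_zero.1 (le_antisymm h6 h7)
    rw [h8, smul_zero, sub_eq_zero] at h2
    exact Subtype.ext h2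
  have h1 := Fintype.card_le_of_injective f hinj
  rw [Fintype.card_coe, Fintype.card_fun, Fintype.card_fin, ZMod.card] at h1
  exact h1.trans (Nat.pow_le_pow_right (by omega) hr)

/-- **Rectification.** -/
theorem rect' {d : ℕ} {G : Type*} [AddCommGroup G] [DecidableEq G] (O : AddSubgroup G)
    (ψ : (Fin d → ℤ) →+ G) (g : G) (E : Finset G) (hE : E.Nonempty)
    (h : ∀ e ∈ E, ∃ x, e - g - ψ x ∈ O) (s : ℕ) :
    ∃ X : Finset ((Fin d → ℤ) × G), X.Nonempty ∧ E.card ≤ (s + 3) ^ d * X.card ∧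
      (∀ p ∈ X, p.2 ∈ O ∧ g + ψ p.1 + p.2 ∈ E) ∧
      (∀ p ∈ X, ∀ q ∈ X, ψ p.1 + p.2 = ψ q.1 + q.2 → p = q) ∧
      ∀ u v : Fin s → (Fin d → ℤ) × G, (∀ i, u i ∈ X) → (∀ i, v i ∈ X) →
        ψ (∑ i, (u i).1) + ∑ i, (u i).2 = ψ (∑ i, (v i).1) + ∑ i, (v i).2 →
        ∑ i, u i = ∑ i, v i := by
  classical
  obtain ⟨Λ, hΛ⟩ : ∃ Λ : AddSubgroup (Fin d → ℤ), Λ = O.comap ψ := ⟨_, rfl⟩
  have hmem : ∀ x, x ∈ Λ ↔ ψ x ∈ O := by
    intro x
    rw [hΛ]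
    exact Iff.rfl
  -- short representatives
  have h1 : ∀ e : G, ∃ x, (e ∈ E → e - g - ψ x ∈ O) ∧ ∀ μ ∈ Λ, |2 * (x ⬝ᵥ μ)| ≤ μ ⬝ᵥ μ := by
    intro e
    by_cases he : e ∈ E
    · obtain ⟨x, hx⟩ := h e he
      obtain ⟨l, hl, hn⟩ := nearest Λ x
      refine ⟨x - l, fun _ => ?_, hn⟩
      rw [map_sub, show e - g - (ψ x - ψ l) = (e - g - ψ x) + ψ l by abel]
      exact O.add_mem hx ((hmem l).1 hl)
    · obtain ⟨l, hl, hn⟩ := nearest Λ 0
      exact ⟨0 - l, fun hh => absurd hh he, hn⟩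
  choose x hx hxs using h1
  -- the cells
  have h2 : ∀ e : G, ∃ l ∈ Λ, ∀ μ ∈ Λ, |2 * ((((s + 1 : ℕ) : ℤ) • x e - l) ⬝ᵥ μ)| ≤ μ ⬝ᵥ μ :=
    fun e => nearest Λ _
  choose m hm hms using h2
  have hcount : (E.image m).card ≤ (s + 3) ^ d := by
    refine count Λ (s + 2) (E.image m) ?_ ?_
    · intro l hl
      obtain ⟨e, -, rfl⟩ := Finset.mem_image.1 hl
      exact hm e
    · intro l hl μ hμ
      obtain ⟨e, -, rfl⟩ := Finset.mem_image.1 hl
      have h3 := abs_le.1 (hms e μ hμ)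
      have h4 := abs_le.1 (hxs e μ hμ)
      have hs0 : (0 : ℤ) ≤ ((s + 1 : ℕ) : ℤ) := Int.natCast_nonneg _
      have h5 := mul_le_mul_of_nonneg_left h4.1 hs0
      have h6 := mul_le_mul_of_nonneg_left h4.2 hs0
      rw [sub_dotProduct, smul_dotProduct, smul_eq_mul] at h3
      push_cast at h3 h5 h6 ⊢
      rw [abs_le]
      constructor <;> nlinarith
  -- the most popular cell
  obtain ⟨m₀, hm₀, hmax⟩ := (E.image m).exists_max_image
    (fun b => (E.filter fun e => m e = b).card) (hE.image m)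
  have hcard : E.card ≤ (E.filter fun e => m e = m₀).card * (E.image m).card :=
    Finset.card_le_mul_card_image E _ fun z hz => hmax z hz
  set E₀ := E.filter fun e => m e = m₀ with hE₀
  have hE₀E : ∀ e ∈ E₀, e ∈ E ∧ m e = m₀ := fun e he => Finset.mem_filter.1 he
  let q : G → (Fin d → ℤ) × G := fun e => (x e, e - g - ψ (x e))
  have hq : Function.Injective q := by
    intro e e' hee
    have e1 : x e = x e' := congrArg Prod.fst hee
    have e2 : e - g - ψ (x e) = e' - g - ψ (x e') := congrArg Prod.snd hee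
    rw [e1] at e2
    exact sub_left_injective (sub_left_injective e2)
  have hEpos : 0 < E.card := hE.card_pos
  have hE₀pos : 0 < E₀.card := by
    by_contra hcon
    have h0 : E₀.card = 0 := by omega
    rw [h0, zero_mul] at hcard
    omega
  refine ⟨E₀.image q, (Finset.card_pos.1 hE₀pos).image q, ?_, ?_, ?_, ?_⟩
  · rw [Finset.card_image_of_injective _ hq, mul_comm]
    exact hcard.trans (Nat.mul_le_mul_left _ hcount)
  · intro p hp
    obtain ⟨e, he, rfl⟩ := Finset.mem_image.1 hp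
    refine ⟨hx e (hE₀E e he).1, ?_⟩
    show g + ψ (x e) + (e - g - ψ (x e)) ∈ E
    rw [show g + ψ (x e) + (e - g - ψ (x e)) = e by abel]
    exact (hE₀E e he).1
  · intro p hp p' hp' e
    obtain ⟨y, hy, rfl⟩ := Finset.mem_image.1 hp
    obtain ⟨y', hy', rfl⟩ := Finset.mem_image.1 hp'
    have e1 : ψ (x y) + (y - g - ψ (x y)) = ψ (x y') + (y' - g - ψ (x y')) := e
    rw [add_sub_cancel, add_sub_cancel] at e1
    rw [sub_left_injective e1]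
  · intro u v hu hv huv
    have hO : ∀ p ∈ E₀.image q, p.2 ∈ O := by
      intro p hp
      obtain ⟨e, he, rfl⟩ := Finset.mem_image.1 hp
      exact hx e (hE₀E e he).1
    obtain ⟨z, hz⟩ : ∃ z : Fin d → ℤ, z = ∑ i, ((u i).1 - (v i).1) := ⟨_, rfl⟩
    have hz' : z = ∑ i, (u i).1 - ∑ i, (v i).1 := by rw [hz, Finset.sum_sub_distrib]
    have hzΛ : z ∈ Λ := by
      rw [hmem, hz', map_sub]
      have e1 : ψ (∑ i, (u i).1) - ψ (∑ i, (v i).1) = ∑ i, (v i).2 - ∑ i, (u i).2 := by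
        rw [sub_eq_sub_iff_add_eq_add, huv]
        abel
      rw [e1]
      exact O.sub_mem (O.sum_mem fun i _ => hO _ (hv i)) (O.sum_mem fun i _ => hO _ (hu i))
    have hbd : ∀ p ∈ E₀.image q, ∀ μ ∈ Λ,
        |2 * ((((s + 1 : ℕ) : ℤ) • p.1 - m₀) ⬝ᵥ μ)| ≤ μ ⬝ᵥ μ := by
      intro p hp μ hμ
      obtain ⟨e, he, rfl⟩ := Finset.mem_image.1 hp
      have h3 := hms e μ hμ
      rw [(hE₀E e he).2] at h3
      exact h3
    have hdiff : ∀ i, ∀ μ ∈ Λ, ((s : ℤ) + 1) * (((u i).1 - (v i).1) ⬝ᵥ μ) ≤ μ ⬝ᵥ μ := by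
      intro i μ hμ
      have h3 := abs_le.1 (hbd _ (hu i) μ hμ)
      have h4 := abs_le.1 (hbd _ (hv i) μ hμ)
      rw [sub_dotProduct, smul_dotProduct, smul_eq_mul] at h3 h4
      rw [sub_dotProduct]
      push_cast at h3 h4
      nlinarith
    have hsum : ((s : ℤ) + 1) * (z ⬝ᵥ z) ≤ s * (z ⬝ᵥ z) := by
      have h5 : z ⬝ᵥ z = ∑ i, ((u i).1 - (v i).1) ⬝ᵥ z := by
        conv_lhs => rw [hz]
        rw [sum_dotProduct]
        simp only [← hz]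
      calc ((s : ℤ) + 1) * (z ⬝ᵥ z) = ∑ i, ((s : ℤ) + 1) * (((u i).1 - (v i).1) ⬝ᵥ z) := by
            conv_lhs => rw [h5]
            rw [Finset.mul_sum]
        _ ≤ ∑ _i : Fin s, (z ⬝ᵥ z) := Finset.sum_le_sum fun i _ => hdiff i z hzΛ
        _ = s * (z ⬝ᵥ z) := by simp
    have hz0 : z = 0 := by
      have h7 : 0 ≤ z ⬝ᵥ z := Finset.sum_nonneg fun i _ => mul_self_nonneg (z i)
      exact dotProduct_self_eq_zero.1 (by nlinarith)
    have e1 : ∑ i, (u i).1 = ∑ i, (v i).1 := by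
      rw [hz', sub_eq_zero] at hz0
      exact hz0
    have e2 : ∑ i, (u i).2 = ∑ i, (v i).2 := by
      rw [e1] at huv
      exact add_left_cancel huv
    refine Prod.ext ?_ ?_
    · rw [Prod.fst_sum, Prod.fst_sum]
      exact e1
    · rw [Prod.snd_sum, Prod.snd_sum]
      exact e2

theorem rect {d : ℕ} {G : Type*} [AddCommGroup G] [DecidableEq G] (O : AddSubgroup G)
    (ψ : (Fin d → ℤ) →+ G) (g : G) (E : Finset G) (hE : E.Nonempty)
    (h : ∀ e ∈ E, ∃ x, e - g - ψ x ∈ O) (s : ℕ) :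
    ∃ X : Finset ((Fin d → ℤ) × G), X.Nonempty ∧ E.card ≤ (s + 3) ^ d * X.card ∧
      (∀ p ∈ X, p.2 ∈ O ∧ g + ψ p.1 + p.2 ∈ E) ∧
      ∀ u v : Fin s → (Fin d → ℤ) × G, (∀ i, u i ∈ X) → (∀ i, v i ∈ X) →
        ψ (∑ i, (u i).1) + ∑ i, (u i).2 = ψ (∑ i, (v i).1) + ∑ i, (v i).2 →
        ∑ i, u i = ∑ i, v i := by
  obtain ⟨X, h1, h2, h3, -, h4⟩ := rect' O ψ g E hE h s
  exact ⟨X, h1, h2, h3, h4⟩

end Pool.Agent.N112.PR
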