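import Pool.Agent.N112.PR.Vor
import Pool.Agent.N112.PR.IntZd

/-!
# The weak form for finite groups of odd order implies the weak form for all abelian groups (core)
-/

set_option autoImplicit false

namespace Pool.Agent.N112.PR

open Finset Pool.Agent.Y806.DF Pool.Agent.R92.Star Pool.Agent.R424.EX
open scoped Pointwise

universe u

/-- The weak (rank) form of Q1 for the group `Γ`, with natural exponents. -/
def WeakN (n : ℕ) (Γ : Type*) [AddCommGroup Γ] [DecidableEq Γ] : Prop :=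
  ∀ (K : ℝ) (A : Finset Γ), A.Nonempty → ((A + A).card : ℝ) ≤ K * A.card →
    ∃ (H : AddSubgroup Γ) (S T : Finset Γ), Finite H ∧
      (((A : Set Γ) + (H : Set Γ)).ncard : ℝ) ≤ n * K ^ n * A.card ∧
      (S.card : ℝ) ≤ n * Real.log (2 * K) ∧ (T.card : ℝ) ≤ n * K ^ n ∧
      ∀ a ∈ A, ∃ t ∈ T, a - t ∈ H ⊔ AddSubgroup.closure (S : Set Γ)

/-- From a part of the set to the set. -/
theorem asm {G : Type*} [AddCommGroup G] [DecidableEq G] {A A₀ : Finset G} (hA₀ : A₀.Nonempty)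
    (hsub : A₀ ⊆ A) {L α β : ℝ} (hL : ((A + A).card : ℝ) ≤ L * A.card) (hL0 : 0 ≤ L)
    (hα : (A.card : ℝ) ≤ α * A₀.card) (H : AddSubgroup G) [Finite H]
    (hβ : ((A₀ + fs H).card : ℝ) ≤ β * A.card) (V : AddSubgroup G)
    (hV : ∀ x ∈ A₀, ∀ y ∈ A₀, x - y ∈ V) :
    (((A : Set G) + (H : Set G)).ncard : ℝ) ≤ L * α * β * A.card ∧
      ∃ T : Finset G, (T.card : ℝ) ≤ L * α ∧ ∀ a ∈ A, ∃ t ∈ T, a - t ∈ V := by
  have hA₀r : (0 : ℝ) < A₀.card := by exact_mod_cast hA₀.card_pos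
  have hsum : ((A + A₀).card : ℝ) ≤ L * A.card :=
    (by exact_mod_cast Finset.card_le_card (Finset.add_subset_add_left hsub) :
      ((A + A₀).card : ℝ) ≤ (A + A).card).trans hL
  constructor
  · have h1 := Finset.ruzsa_triangle_inequality_add_add_add A A₀ (fs H)
    have h2 : ((A + fs H).card : ℝ) * A₀.card ≤ (L * A.card) * (β * A.card) := by
      calc ((A + fs H).card : ℝ) * A₀.card ≤ (A + A₀).card * (A₀ + fs H).card := by
            exact_mod_cast h1
        _ ≤ (L * A.card) * (β * A.card) := mul_le_mul hsum hβ (Nat.cast_nonneg _)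
            (mul_nonneg hL0 (Nat.cast_nonneg _))
    have hβ0 : 0 ≤ β * A.card := (Nat.cast_nonneg _).trans hβ
    have h3 : ((A + fs H).card : ℝ) * A₀.card ≤ (L * α * β * A.card) * A₀.card := by
      calc ((A + fs H).card : ℝ) * A₀.card ≤ (L * A.card) * (β * A.card) := h2
        _ ≤ (L * (α * A₀.card)) * (β * A.card) :=
          mul_le_mul_of_nonneg_right (mul_le_mul_of_nonneg_left hα hL0) hβ0
        _ = _ := by ring
    have h4 := le_of_mul_le_mul_right h3 hA₀r
    have h5 : ((A : Set G) + (H : Set G)) = ((A + fs H : Finset G) : Set G) := by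
      rw [Finset.coe_add]
      congr 1
      ext x
      rw [Finset.mem_coe, mem_fs]
      rfl
    rw [h5, Set.ncard_coe_finset]
    exact h4
  · obtain ⟨F, hFA, hF, hcov⟩ := cover (P := A) hA₀ (K := L * α) (by
      calc ((A + A₀).card : ℝ) ≤ L * A.card := hsum
        _ ≤ L * (α * A₀.card) := mul_le_mul_of_nonneg_left hα hL0
        _ = _ := by ring)
    refine ⟨F, hF, fun a ha => ?_⟩
    obtain ⟨x, hx, y, hy, z, hz, e⟩ := hcov a ha
    exact ⟨x, hx, by rw [e, add_sub_cancel_left]; exact hV y hy z hz⟩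

/-- `rect` with `s = 2` and a finitely generated subgroup. -/
theorem rect2 {d : ℕ} {G : Type*} [AddCommGroup G] [DecidableEq G] (O : AddSubgroup G)
    (ψ : (Fin d → ℤ) →+ G) (g : G) (E : Finset G) (hE : E.Nonempty)
    (h : ∀ e ∈ E, ∃ x, e - g - ψ x ∈ O) :
    ∃ (F : Finset G) (X : Finset ((Fin d → ℤ) × (AddSubgroup.closure (F : Set G)))),
      (F : Set G) ⊆ O ∧ X.Nonempty ∧ E.card ≤ 5 ^ d * X.card ∧
      (∀ p ∈ X, g + (ψ p.1 + p.2) ∈ E) ∧
      ∀ p ∈ X, ∀ q ∈ X, ∀ p' ∈ X, ∀ q' ∈ X,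
        (ψ p.1 + p.2) + (ψ q.1 + q.2) = (ψ p'.1 + p'.2) + (ψ q'.1 + q'.2) → p + q = p' + q' := by
  classical
  obtain ⟨X, hXne, hcard, hX, hF⟩ := rect O ψ g E hE h 2
  have hF2 : ∀ p ∈ X, ∀ q ∈ X, ∀ p' ∈ X, ∀ q' ∈ X,
      (ψ p.1 + p.2) + (ψ q.1 + q.2) = (ψ p'.1 + p'.2) + (ψ q'.1 + q'.2) → p + q = p' + q' := by
    intro p hp q hq p' hp' q' hq' e
    have h1 := hF ![p, q] ![p', q'] (by
        intro i
        fin_cases i
        · exact hp
        · exact hq) (by
        intro i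
        fin_cases i
        · exact hp'
        · exact hq') (by
        simp only [Fin.sum_univ_two, Matrix.cons_val_zero, Matrix.cons_val_one]
        rw [map_add, map_add]
        have e1 : ψ p.1 + ψ q.1 + (p.2 + q.2) = (ψ p.1 + p.2) + (ψ q.1 + q.2) := by abel
        have e2 : ψ p'.1 + ψ q'.1 + (p'.2 + q'.2) = (ψ p'.1 + p'.2) + (ψ q'.1 + q'.2) := by abel
        rw [e1, e2, e])
    simpa [Fin.sum_univ_two] using h1
  set F : Finset G := X.image Prod.snd with hFdef
  have hmemF : ∀ p ∈ X, p.2 ∈ AddSubgroup.closure (F : Set G) := fun p hp =>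
    AddSubgroup.subset_closure (Finset.mem_coe.2 (Finset.mem_image_of_mem _ hp))
  let ι : (Fin d → ℤ) × (AddSubgroup.closure (F : Set G)) → (Fin d → ℤ) × G :=
    fun p => (p.1, (p.2 : G))
  have hι : Function.Injective ι := by
    intro p q hpq
    have e1 : (ι p).1 = (ι q).1 := congrArg Prod.fst hpq
    have e2 : (ι p).2 = (ι q).2 := congrArg Prod.snd hpq
    exact Prod.ext e1 (Subtype.ext e2)
  set Y := X.preimage ι hι.injOn with hY
  have hmemY : ∀ p, p ∈ Y ↔ ι p ∈ X := fun p => Finset.mem_preimage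
  have himg : Y.image ι = X := by
    ext p
    rw [Finset.mem_image]
    constructor
    · rintro ⟨q, hq, rfl⟩
      exact (hmemY q).1 hq
    · intro hp
      exact ⟨(p.1, ⟨p.2, hmemF p hp⟩), (hmemY _).2 hp, rfl⟩
  have hYcard : Y.card = X.card := by
    rw [← himg, Finset.card_image_of_injective _ hι]
  refine ⟨F, Y, ?_, ?_, ?_, ?_, ?_⟩
  · intro o ho
    obtain ⟨p, hp, rfl⟩ := Finset.mem_image.1 (Finset.mem_coe.1 ho)
    exact (hX p hp).1
  · rw [← Finset.card_pos, hYcard]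
    exact hXne.card_pos
  · rw [hYcard]
    exact hcard
  · intro p hp
    have h1 := (hX _ ((hmemY p).1 hp)).2
    rw [← add_assoc]
    exact h1
  · intro p hp q hq p' hp' q' hq' e
    have h1 := hF2 _ ((hmemY p).1 hp) _ ((hmemY q).1 hq) _ ((hmemY p').1 hp') _
      ((hmemY q').1 hq') e
    have e1 : p.1 + q.1 = p'.1 + q'.1 := congrArg Prod.fst h1
    have e2 : (p.2 : G) + q.2 = p'.2 + q'.2 := congrArg Prod.snd h1
    exact Prod.ext e1 (Subtype.ext e2)

/-- the elements of odd order -/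
def oddPart (Γ : Type*) [AddCommGroup Γ] : AddSubgroup Γ where
  carrier := {x | ∃ m : ℕ, Odd m ∧ m • x = 0}
  zero_mem' := ⟨1, odd_one, smul_zero 1⟩
  add_mem' := by
    rintro x y ⟨m, hm, hx⟩ ⟨k, hk, hy⟩
    refine ⟨m * k, hm.mul hk, ?_⟩
    rw [smul_add, mul_comm m k, mul_smul, hx, smul_zero, zero_add, mul_comm k m, mul_smul, hy,
      smul_zero]
  neg_mem' := by
    rintro x ⟨m, hm, hx⟩
    exact ⟨m, hm, by rw [smul_neg, hx, neg_zero]⟩

/-- a subgroup generated by finitely many elements of odd order is finite of odd order -/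
theorem finite_odd {G : Type*} [AddCommGroup G] (F : Finset G)
    (hF : (F : Set G) ⊆ oddPart G) :
    Finite (AddSubgroup.closure (F : Set G)) ∧ Odd (Nat.card (AddSubgroup.closure (F : Set G))) := by
  have hle : AddSubgroup.closure (F : Set G) ≤ oddPart G := (AddSubgroup.closure_le _).2 hF
  have hodd : ∀ x : AddSubgroup.closure (F : Set G), ∃ m : ℕ, Odd m ∧ m • x = 0 := by
    intro x
    obtain ⟨m, hm, h⟩ := hle x.2
    exact ⟨m, hm, Subtype.ext h⟩
  have hfg : AddGroup.FG (AddSubgroup.closure (F : Set G)) :=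
    (AddGroup.fg_iff_addSubgroup_fg _).2 ⟨F, rfl⟩
  have hfin : Finite (AddSubgroup.closure (F : Set G)) := by
    refine AddCommGroup.finite_of_fg_isAddTorsion _ ?_
    intro x
    obtain ⟨m, hm, h⟩ := hodd x
    exact isOfFinAddOrder_iff_nsmul_eq_zero.2 ⟨m, hm.pos, h⟩
  refine ⟨hfin, ?_⟩
  rw [← Nat.not_even_iff_odd]
  intro heven
  have : Fact (Nat.Prime 2) := ⟨Nat.prime_two⟩
  obtain ⟨x, hx⟩ := exists_prime_addOrderOf_dvd_card' (G := AddSubgroup.closure (F : Set G)) 2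
    heven.two_dvd
  obtain ⟨m, hm, h⟩ := hodd x
  have h1 : 2 ∣ m := by
    rw [← hx]
    exact addOrderOf_dvd_of_nsmul_eq_zero h
  obtain ⟨k, hk⟩ := hm
  omega

end Pool.Agent.N112.PR
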